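import Mathlib

/-!
# Finitely many algebraic numbers are generated by one algebraic integer
-/

set_option autoImplicit false

open Polynomial

namespace Pool.Agent.J4H11.GP

theorem rat_mem (K : Subfield ℂ) (q : ℚ) : (algebraMap ℚ ℂ q) ∈ K := by
  rw [eq_ratCast]
  exact SubfieldClass.ratCast_mem K q

theorem aeval_mem (K : Subfield ℂ) (α : ℂ) (hα : α ∈ K) (p : ℚ[X]) : aeval α p ∈ K := by
  rw [aeval_eq_sum_range]
  refine sum_mem fun n _ => ?_
  rw [Algebra.smul_def]
  exact mul_mem (rat_mem K _) (pow_mem hα _)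

theorem one_alg (T : Set ℂ) (hT : T.Finite) (hTa : ∀ x ∈ T, IsAlgebraic ℚ x) :
    ∃ α : ℂ, IsIntegral ℤ α ∧ ∀ K : Subfield ℂ, α ∈ K → T ⊆ K := by
  have _ : Finite T := hT
  have hfd : FiniteDimensional ℚ (IntermediateField.adjoin ℚ T) :=
    IntermediateField.finiteDimensional_adjoin fun x hx => (hTa x hx).isIntegral
  obtain ⟨α0, hα0⟩ := Field.exists_primitive_element ℚ (IntermediateField.adjoin ℚ T)
  have hai : IsIntegral ℚ α0 := Algebra.IsIntegral.isIntegral α0
  have halg : IsAlgebraic ℤ (α0 : ℂ) := by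
    rw [IsFractionRing.isAlgebraic_iff ℤ ℚ ℂ]
    have h1 : IsAlgebraic ℚ α0 := hai.isAlgebraic
    exact h1.algebraMap
  obtain ⟨y, hy, hyi⟩ := halg.exists_integral_multiple
  refine ⟨y • (α0 : ℂ), hyi, fun K hK x hx => ?_⟩
  have hα0K : (α0 : ℂ) ∈ K := by
    have h1 : (α0 : ℂ) = (y : ℂ)⁻¹ * (y • (α0 : ℂ)) := by
      rw [zsmul_eq_mul, ← mul_assoc, inv_mul_cancel₀ (by exact_mod_cast hy), one_mul]
    rw [h1]
    exact mul_mem (inv_mem (intCast_mem K y)) hK
  have hx' : (⟨x, IntermediateField.subset_adjoin ℚ T hx⟩ : IntermediateField.adjoin ℚ T) ∈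
      IntermediateField.adjoin ℚ {α0} := by
    rw [hα0]
    trivial
  rw [IntermediateField.mem_adjoin_simple_iff] at hx'
  obtain ⟨p, q, hpq⟩ := hx'
  have h2 : x = aeval (α0 : ℂ) p / aeval (α0 : ℂ) q := by
    have h3 := congrArg (algebraMap (IntermediateField.adjoin ℚ T) ℂ) hpq
    rw [map_div₀, ← aeval_algebraMap_apply, ← aeval_algebraMap_apply] at h3
    exact h3
  rw [h2]
  exact div_mem (aeval_mem K _ hα0K p) (aeval_mem K _ hα0K q)

theorem alg_red {ν : ℕ} (S : Set ℂ) (w : Fin ν → ℂ)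
    (hw : ∀ t, w t ∈ IntermediateField.adjoin ℚ (S ∪ {α | IsAlgebraic ℚ α})) :
    ∃ α : ℂ, IsIntegral ℤ α ∧ ∀ t, w t ∈ Subfield.closure (S ∪ {α}) := by
  classical
  have h1 := fun t => IntermediateField.exists_finset_of_mem_adjoin (hw t)
  choose T hT hT2 using h1
  set U : Set ℂ := (⋃ t, (T t : Set ℂ)) ∩ {α | IsAlgebraic ℚ α} with hU
  have hUf : U.Finite := (Set.finite_iUnion fun t => Finset.finite_toSet _).subset
    Set.inter_subset_left
  obtain ⟨α, hα, hα2⟩ := one_alg U hUf (fun x hx => hx.2)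
  refine ⟨α, hα, fun t => ?_⟩
  set K := Subfield.closure (S ∪ {α}) with hK
  have hαK : α ∈ K := Subfield.subset_closure (Or.inr rfl)
  have hUK := hα2 K hαK
  let K' : IntermediateField ℚ ℂ := { K with algebraMap_mem' := fun q => rat_mem K q }
  have hle : IntermediateField.adjoin ℚ (T t : Set ℂ) ≤ K' := by
    rw [IntermediateField.adjoin_le_iff]
    intro x hx
    change x ∈ K
    rcases hT t hx with h | h
    · exact Subfield.subset_closure (Or.inl h)
    · exact hUK ⟨Set.mem_iUnion.2 ⟨t, hx⟩, h⟩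
  exact hle (hT2 t)

end Pool.Agent.J4H11.GP
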