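import Mathlib

/-!
# A large algebraically closed subfield of corank one
-/

set_option autoImplicit false

open Polynomial

namespace Pool.Agent.J4H11.GP

theorem field_choice {C : Type} [Field C] [IsAlgClosed C] [CharZero C] (S : Set C) (t0 : C)
    (ht : Transcendental (IntermediateField.adjoin ℚ S) t0) :
    ∃ (k : Type) (_ : Field k) (_ : IsAlgClosed k) (_ : CharZero k) (ι : k →+* C),
      S ⊆ Set.range ι ∧ (∀ p : k[X], p.eval₂ ι t0 = 0 → p = 0) ∧
      ∀ L : Subfield C, (∀ c, ι c ∈ L) → t0 ∈ L → Algebra.IsAlgebraic L C := by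
  set k1 := IntermediateField.adjoin ℚ S with hk1
  have hs : AlgebraicIndepOn k1 id {t0} := by
    have h1 : AlgebraicIndependent k1 (fun _ : ({t0} : Set C) => t0) := by
      rw [algebraicIndependent_unique_type_iff]
      exact ht
    have h2 : (fun x : ({t0} : Set C) => id (x : C)) = fun _ => t0 := by
      funext x
      exact x.2
    unfold AlgebraicIndepOn
    rw [h2]
    exact h1
  obtain ⟨T, hT, hTb⟩ := exists_isTranscendenceBasis_superset hs
  have ht0 : t0 ∈ T := hT rfl
  set T' := T \ {t0} with hT'
  have hins : insert t0 T' = T := Set.insert_sdiff_self_of_mem ht0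
  have hTr : Transcendental (Algebra.adjoin k1 T') t0 := by
    have h1 : AlgebraicIndepOn k1 id (insert t0 T') := by
      rw [hins]
      exact hTb.1
    have h2 := (AlgebraicIndepOn.insert_iff (R := k1) (x := id) (s := T') (i := t0)
      (fun h => h.2 rfl)).1 h1
    have h3 := h2.2
    rw [Set.image_id] at h3
    exact h3
  set k2 := IntermediateField.adjoin k1 T' with hk2
  have hTr2 : Transcendental k2 t0 := IntermediateField.transcendental_adjoin_iff.2 hTr
  have hTr3 : Transcendental (algebraicClosure k2 C) t0 := hTr2.algebraicClosure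
  have hac : IsAlgClosed (algebraicClosure k2 C) := IsAlgClosure.isAlgClosed k2
  have h12 : ∀ x : C, x ∈ k1 → x ∈ k2 := fun x hx => k2.algebraMap_mem ⟨x, hx⟩
  have h23 : ∀ x : C, x ∈ k2 → x ∈ algebraicClosure k2 C := fun x hx =>
    (algebraicClosure k2 C).algebraMap_mem ⟨x, hx⟩
  refine ⟨algebraicClosure k2 C, inferInstance, hac, inferInstance,
    algebraMap (algebraicClosure k2 C) C, ?_, ?_, ?_⟩
  · intro x hx
    exact ⟨⟨x, h23 x (h12 x (IntermediateField.subset_adjoin ℚ S hx))⟩, rfl⟩
  · intro p hp
    exact transcendental_iff.1 hTr3 p hp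
  · intro L hL htL
    have hk1L : ∀ x : C, x ∈ k1 → x ∈ L := fun x hx => hL ⟨x, h23 x (h12 x hx)⟩
    let L' : IntermediateField k1 C :=
      { L with algebraMap_mem' := fun c => hk1L _ c.2 }
    have hle : IntermediateField.adjoin k1 T ≤ L' := by
      rw [IntermediateField.adjoin_le_iff]
      intro t htT
      by_cases h0 : t = t0
      · rw [h0]
        exact htL
      · exact hL ⟨t, h23 t (IntermediateField.subset_adjoin k1 T' ⟨htT, h0⟩)⟩
    have hal := hTb.isAlgebraic_field
    have hrange : Set.range ((↑) : T → C) = T := Subtype.range_coe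
    rw [hrange] at hal
    refine ⟨fun z => ?_⟩
    obtain ⟨p, hp, hp0⟩ := hal.isAlgebraic z
    let inc : IntermediateField.adjoin k1 T →+* L :=
      { toFun := fun x => ⟨x.1, hle x.2⟩
        map_one' := rfl
        map_mul' := fun _ _ => rfl
        map_zero' := rfl
        map_add' := fun _ _ => rfl }
    refine ⟨p.map inc, (Polynomial.map_ne_zero_iff inc.injective).2 hp, ?_⟩
    rw [aeval_def, eval₂_map]
    exact hp0

end Pool.Agent.J4H11.GP
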