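import Pool.Agent.J4H11.SC.Lam
import Pool.Agent.J4H11.RC.Loc
import Pool.Agent.H901R3.MS.All

/-!
# Points of an elliptic curve over fields of functions: functoriality and generic points
-/

set_option autoImplicit false

open Polynomial Pool.Agent.J4H11.RC Pool.Agent.J4H11.SC Pool.Agent.H901R3.MS WeierstrassCurve

attribute [local instance 5000] Classical.propDecidable

namespace Pool.Agent.J4H11.GP

section
variable {K L M : Type} [Field K] [Field L] [Field M]

theorem disc_of (φ : K →+* L) (a b : ℤ) (hD : Disc (a : K) (b : K)) : Disc (a : L) (b : L) := by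
  unfold Disc at hD ⊢
  have h1 : (2 : L) * (4 * (a : L) ^ 3 + 27 * (b : L) ^ 2) =
      φ (2 * (4 * (a : K) ^ 3 + 27 * (b : K) ^ 2)) := by
    simp only [map_mul, map_add, map_pow, map_ofNat, map_intCast]
  rw [h1]
  exact (map_ne_zero φ).2 hD

/-- the trivial place given by a homomorphism of fields -/
def triv (φ : K →+* L) : Place K L where
  A := ⊤
  ρ := φ.comp (⊤ : Subring K).subtype
  inv_of_notMem _ h := absurd trivial h
  inv_of_ne _ _ := trivial

theorem triv_r (φ : K →+* L) (x : K) : (triv φ).r x = φ x := (triv φ).r_of trivial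

/-- the reduction homomorphism -/
theorem exists_red (v : Place K L) (a b : ℤ) (hD : Disc (a : L) (b : L)) :
    ∃ red : Pt (a : K) (b : K) →+ Pt (a : L) (b : L), IsRed v a b red :=
  t_R6 t_R1 t_R2 t_R3 t_R4 t_R5 K L v a b hD

theorem pm_exists (φ : K →+* L) (a b : ℤ) (hD : Disc (a : L) (b : L)) :
    ∃ g : Pt (a : K) (b : K) →+ Pt (a : L) (b : L), ∀ x y h, ∃ h',
      g (Affine.Point.some x y h) = Affine.Point.some (φ x) (φ y) h' := by
  obtain ⟨g, -, -, hg⟩ := exists_red (triv φ) a b hD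
  refine ⟨g, fun x y h => ?_⟩
  obtain ⟨-, h', e⟩ := hg x y h trivial
  rw [e]
  have e1 := triv_r φ x
  have e2 := triv_r φ y
  refine ⟨by rw [← e1, ← e2]; exact h', ?_⟩
  congr 1

/-- the homomorphism of the groups of points given by a homomorphism of fields -/
noncomputable def pm (φ : K →+* L) {a b : ℤ} (hD : Disc (a : L) (b : L)) :
    Pt (a : K) (b : K) →+ Pt (a : L) (b : L) := (pm_exists φ a b hD).choose

theorem pm_some (φ : K →+* L) {a b : ℤ} (hD : Disc (a : L) (b : L)) (x y : K)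
    (h : (CV (a : K) (b : K)).toAffine.Nonsingular x y) :
    ∃ h', pm φ hD (Affine.Point.some x y h) = Affine.Point.some (φ x) (φ y) h' :=
  (pm_exists φ a b hD).choose_spec x y h

theorem pt_ext {a b : ℤ} {P Q : Pt (a : K) (b : K)} (hP : P ≠ 0) (hQ : Q ≠ 0)
    (h : crd P = crd Q) : P = Q := by
  rcases P with _ | ⟨x, y, h1⟩
  · exact absurd rfl hP
  · rcases Q with _ | ⟨x', y', h2⟩
    · exact absurd rfl hQ
    · have h3 : (x, y) = (x', y') := h
      obtain ⟨rfl, rfl⟩ := Prod.mk.inj h3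
      rfl

theorem some_ne {a b : ℤ} {x y : K} (h : (CV (a : K) (b : K)).toAffine.Nonsingular x y) :
    (Affine.Point.some x y h : Pt (a : K) (b : K)) ≠ 0 := by
  intro h0
  cases h0

theorem pm_ne (φ : K →+* L) {a b : ℤ} (hD : Disc (a : L) (b : L)) {P : Pt (a : K) (b : K)}
    (hP : P ≠ 0) : pm φ hD P ≠ 0 := by
  rcases P with _ | ⟨x, y, h1⟩
  · exact absurd rfl hP
  · obtain ⟨h', e⟩ := pm_some φ hD x y h1
    rw [e]
    exact some_ne h'

theorem pm_inj (φ : K →+* L) {a b : ℤ} (hD : Disc (a : L) (b : L)) :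
    Function.Injective (pm φ hD : Pt (a : K) (b : K) →+ Pt (a : L) (b : L)) := by
  rw [injective_iff_map_eq_zero]
  intro P hP
  by_contra h
  exact pm_ne φ hD h hP

theorem pm_crd (φ : K →+* L) {a b : ℤ} (hD : Disc (a : L) (b : L)) (P : Pt (a : K) (b : K)) :
    crd (pm φ hD P) = (φ (crd P).1, φ (crd P).2) := by
  rcases P with _ | ⟨x, y, h1⟩
  · have e : pm φ hD (Affine.Point.zero : Pt (a : K) (b : K)) = 0 := map_zero _
    rw [e]
    change ((0 : L), (0 : L)) = (φ 0, φ 0)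
    rw [map_zero]
  · obtain ⟨h', e⟩ := pm_some φ hD x y h1
    rw [e]
    rfl

theorem pm_comp (φ : K →+* L) (ψ : L →+* M) {a b : ℤ} (hD : Disc (a : L) (b : L))
    (hD' : Disc (a : M) (b : M)) (P : Pt (a : K) (b : K)) :
    pm ψ hD' (pm φ hD P) = pm (ψ.comp φ) hD' P := by
  by_cases hP : P = 0
  · rw [hP, map_zero, map_zero, map_zero]
  · refine pt_ext (pm_ne _ _ (pm_ne _ _ hP)) (pm_ne _ _ hP) ?_
    rw [pm_crd, pm_crd, pm_crd]
    rfl

theorem pm_id {a b : ℤ} (hD : Disc (a : K) (b : K)) (P : Pt (a : K) (b : K)) :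
    pm (RingHom.id K) hD P = P := by
  by_cases hP : P = 0
  · rw [hP, map_zero]
  · refine pt_ext (pm_ne _ _ hP) hP ?_
    rw [pm_crd]
    rfl

/-- reduction of a point whose coordinates are integral -/
theorem red_pm (v : Place L M) {a b : ℤ} (hD : Disc (a : L) (b : L)) (hD' : Disc (a : M) (b : M))
    (red : Pt (a : L) (b : L) →+ Pt (a : M) (b : M)) (hred : IsRed v a b red) (φ : K →+* L)
    (ψ : K →+* M) (h : ∀ c, φ c ∈ v.A ∧ v.r (φ c) = ψ c) (P : Pt (a : K) (b : K)) :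
    red (pm φ hD P) = pm ψ hD' P := by
  rcases P with _ | ⟨x, y, h1⟩
  · have e : pm φ hD (Affine.Point.zero : Pt (a : K) (b : K)) = 0 := map_zero _
    have e' : pm ψ hD' (Affine.Point.zero : Pt (a : K) (b : K)) = 0 := map_zero _
    rw [e, e', map_zero]
  · obtain ⟨h', e⟩ := pm_some φ hD x y h1
    obtain ⟨h'', e'⟩ := pm_some ψ hD' x y h1
    rw [e, e']
    obtain ⟨-, g, e3⟩ := hred.2.2 _ _ h' (h x).1
    rw [e3]
    congr 1
    · exact (h x).2
    · exact (h y).2

/-- the coordinates of the reduction -/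
theorem red_crd (v : Place L M) {a b : ℤ}
    (red : Pt (a : L) (b : L) →+ Pt (a : M) (b : M)) (hred : IsRed v a b red)
    (Q : Pt (a : L) (b : L)) (hQ : red Q ≠ 0) :
    ((crd Q).1 ∈ v.A ∧ v.r (crd Q).1 = (crd (red Q)).1) ∧
      ((crd Q).2 ∈ v.A ∧ v.r (crd Q).2 = (crd (red Q)).2) := by
  rcases Q with _ | ⟨x, y, h1⟩
  · exact absurd (map_zero red) hQ
  · by_cases hx : x ∈ v.A
    · obtain ⟨hy, g, e⟩ := hred.2.2 x y h1 hx
      rw [e]
      exact ⟨⟨hx, rfl⟩, ⟨hy, rfl⟩⟩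
    · exact absurd (hred.2.1 x y h1 hx) hQ

end

section
variable {k : Type} [Field k] {a b : ℤ}

/-- the point is transcendental -/
def NCr {L : Type} [Field L] (ι : k →+* L) (Q : Pt (a : L) (b : L)) : Prop :=
  Q ≠ 0 ∧ ∀ p : k[X], p.eval₂ ι (crd Q).1 = 0 → p = 0

/-- the field of the functions -/
abbrev Fk (k : Type) [Field k] (a b : ℤ) : Type := FFd (a : k) (b : k)

/-- the generic point -/
noncomputable def Rg (hD : Disc (a : k) (b : k)) : Pt (a : Fk k a b) (b : Fk k a b) :=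
  Affine.Point.some (gX (a : k) (b : k)) (gY (a : k) (b : k))
    ((nonsingular_iff (disc_of (algebraMap k (Fk k a b)) a b hD)).2 (by
      have h := g_onE (a : k) (b : k)
      unfold Pool.Agent.J4H11.SC.OnE at h
      rw [map_intCast, map_intCast] at h
      exact h))

theorem Rg_crd (hD : Disc (a : k) (b : k)) :
    crd (Rg hD) = (gX (a : k) (b : k), gY (a : k) (b : k)) := rfl

theorem Rg_ne (hD : Disc (a : k) (b : k)) : Rg hD ≠ 0 := some_ne _

theorem crd_eqn' {L : Type} [Field L] (Q : Pt (a : L) (b : L)) (hQ : Q ≠ 0) :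
    (crd Q).2 ^ 2 = (crd Q).1 ^ 3 + (a : L) * (crd Q).1 + (b : L) := by
  rcases Q with _ | ⟨x, y, h1⟩
  · exact absurd rfl hQ
  · exact eqn_of h1

/-- the homomorphism given by a transcendental point -/
theorem ffh_exists {L : Type} [Field L] (ι : k →+* L) (hD : Disc (a : k) (b : k))
    (Q : Pt (a : L) (b : L)) (hQ : NCr ι Q) :
    ∃ τ : Fk k a b →+* L, τ.comp (algebraMap k (Fk k a b)) = ι ∧
      pm τ (disc_of ι a b hD) (Rg hD) = Q := by
  let _ : Algebra k L := ι.toAlgebra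
  have hE : Pool.Agent.J4H11.SC.OnE (F := L) (a : k) (b : k) (crd Q).1 (crd Q).2 := by
    unfold Pool.Agent.J4H11.SC.OnE
    have h := crd_eqn' Q hQ.1
    rw [map_intCast, map_intCast]
    exact h
  have hT : Transcendental k (crd Q).1 := by
    rw [transcendental_iff]
    intro p hp
    exact hQ.2 p hp
  obtain ⟨τ, h1, h2⟩ := ff_hom (a : k) (b : k) hE hT
  refine ⟨τ.toRingHom, ?_, ?_⟩
  · ext c
    exact τ.commutes c
  · refine pt_ext (pm_ne _ _ (Rg_ne hD)) hQ.1 ?_
    rw [pm_crd, Rg_crd]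
    exact Prod.ext h1 h2

/-- the homomorphism given by a transcendental point -/
noncomputable def ffh {L : Type} [Field L] (ι : k →+* L) (hD : Disc (a : k) (b : k))
    (Q : Pt (a : L) (b : L)) (hQ : NCr ι Q) : Fk k a b →+* L := (ffh_exists ι hD Q hQ).choose

theorem ffh_alg {L : Type} [Field L] (ι : k →+* L) (hD : Disc (a : k) (b : k))
    (Q : Pt (a : L) (b : L)) (hQ : NCr ι Q) :
    (ffh ι hD Q hQ).comp (algebraMap k (Fk k a b)) = ι := (ffh_exists ι hD Q hQ).choose_spec.1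

theorem ffh_pt {L : Type} [Field L] (ι : k →+* L) (hD : Disc (a : k) (b : k))
    (Q : Pt (a : L) (b : L)) (hQ : NCr ι Q) :
    pm (ffh ι hD Q hQ) (disc_of ι a b hD) (Rg hD) = Q := (ffh_exists ι hD Q hQ).choose_spec.2

/-- uniqueness -/
theorem ff_uniq {L : Type} [Field L] (hD : Disc (a : k) (b : k)) (hD' : Disc (a : L) (b : L))
    (τ τ' : Fk k a b →+* L)
    (h : τ.comp (algebraMap k (Fk k a b)) = τ'.comp (algebraMap k (Fk k a b)))
    (h2 : pm τ hD' (Rg hD) = pm τ' hD' (Rg hD)) : τ = τ' := by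
  have h3 := congrArg crd h2
  rw [pm_crd, pm_crd, Rg_crd] at h3
  obtain ⟨hx, hy⟩ := Prod.mk.inj h3
  have hpoly : ∀ p : k[X], τ (aeval (gX (a : k) (b : k)) p) = τ' (aeval (gX (a : k) (b : k)) p) := by
    intro p
    rw [aeval_def, hom_eval₂, hom_eval₂, h]
    congr 1
  refine RingHom.ext fun u => ?_
  obtain ⟨P, Q, D, hD0, hu⟩ := g_gen (a : k) (b : k) u
  have e1 := congrArg τ hu
  have e2 := congrArg τ' hu
  simp only [map_mul, map_add] at e1 e2
  have hne : τ (aeval (gX (a : k) (b : k)) D) ≠ 0 := by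
    rw [_root_.map_ne_zero]
    intro h0
    exact hD0 (trans_inj (g_trans (a : k) (b : k)) h0)
  apply mul_right_cancel₀ hne
  rw [e1, hpoly P, hpoly Q, hpoly D, e2]
  congr 2

/-- a homomorphism followed by a place -/
theorem place_hom {L M : Type} [Field L] [Field M] (v : Place L M)
    (ψ : Fk k a b →+* L) (lam : Fk k a b →+* M)
    (hc : ∀ c : k, ψ (algebraMap k _ c) ∈ v.A ∧ v.r (ψ (algebraMap k _ c)) =
      lam (algebraMap k _ c))
    (hx : ψ (gX (a : k) (b : k)) ∈ v.A ∧ v.r (ψ (gX (a : k) (b : k))) = lam (gX (a : k) (b : k)))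
    (hy : ψ (gY (a : k) (b : k)) ∈ v.A ∧ v.r (ψ (gY (a : k) (b : k))) = lam (gY (a : k) (b : k)))
    (u : Fk k a b) : ψ u ∈ v.A ∧ v.r (ψ u) = lam u := by
  have hpoly : ∀ p : k[X], ψ (aeval (gX (a : k) (b : k)) p) ∈ v.A ∧
      v.r (ψ (aeval (gX (a : k) (b : k)) p)) = lam (aeval (gX (a : k) (b : k)) p) := by
    intro p
    induction p using Polynomial.induction_on with
    | C c => rw [aeval_C]; exact hc c
    | add p q hp hq =>
      rw [map_add, map_add, map_add]
      exact ⟨v.A.add_mem hp.1 hq.1, by rw [v.r_add hp.1 hq.1, hp.2, hq.2]⟩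
    | monomial n c _ =>
      rw [map_mul, map_mul, map_mul, aeval_C, map_pow, aeval_X, map_pow, map_pow]
      refine ⟨v.A.mul_mem (hc c).1 (v.A.pow_mem hx.1 _), ?_⟩
      rw [v.r_mul (hc c).1 (v.A.pow_mem hx.1 _), v.r_pow hx.1, (hc c).2, hx.2]
  obtain ⟨P, Q, D, hD0, hu⟩ := g_gen (a : k) (b : k) u
  have hDne : aeval (gX (a : k) (b : k)) D ≠ 0 := fun h0 =>
    hD0 (trans_inj (g_trans (a : k) (b : k)) h0)
  have hu' : u = (aeval (gX (a : k) (b : k)) P + aeval (gX (a : k) (b : k)) Q *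
      gY (a : k) (b : k)) / aeval (gX (a : k) (b : k)) D := by
    rw [eq_div_iff hDne]
    exact hu
  have hDr : v.r (ψ (aeval (gX (a : k) (b : k)) D)) ≠ 0 := by
    rw [(hpoly D).2, _root_.map_ne_zero]
    exact hDne
  have hN : ψ (aeval (gX (a : k) (b : k)) P + aeval (gX (a : k) (b : k)) Q *
      gY (a : k) (b : k)) ∈ v.A := by
    rw [map_add, map_mul]
    exact v.A.add_mem (hpoly P).1 (v.A.mul_mem (hpoly Q).1 hy.1)
  rw [hu', map_div₀, map_div₀]
  refine ⟨v.div_mem hN hDr, ?_⟩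
  rw [v.r_div hN hDr, (hpoly D).2]
  congr 1
  rw [map_add, map_mul, v.r_add (hpoly P).1 (v.A.mul_mem (hpoly Q).1 hy.1),
    v.r_mul (hpoly Q).1 hy.1, (hpoly P).2, (hpoly Q).2, hy.2, map_add, map_mul]

end

end Pool.Agent.J4H11.GP
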