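import Mathlib

/-!
# Finite extensions invariant under a divisible group of automorphisms of the base
-/

set_option autoImplicit false

open Polynomial
open scoped Pointwise

namespace Pool.Agent.J4H11.GP

section
variable {F : Type} [Field F] [CharZero F] {G : Type} [AddCommGroup G]


/-- an extension of an automorphism to the algebraic closure -/
def ExtA (t : F ≃+* F) (ρ : (AlgebraicClosure F) ≃+* (AlgebraicClosure F)) : Prop :=
  ∀ c : F, ρ (algebraMap F (AlgebraicClosure F) c) = algebraMap F (AlgebraicClosure F) (t c)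

omit [CharZero F] in
theorem ext_exists (t : F ≃+* F) : ∃ ρ : (AlgebraicClosure F) ≃+* (AlgebraicClosure F), ExtA t ρ :=
  ⟨IsAlgClosure.equivOfEquiv (AlgebraicClosure F) (AlgebraicClosure F) t, fun c => IsAlgClosure.equivOfEquiv_algebraMap (AlgebraicClosure F) (AlgebraicClosure F) t c⟩

/-- the inverse image of an intermediate field -/
noncomputable def pull (t : F ≃+* F) (ρ : (AlgebraicClosure F) ≃+* (AlgebraicClosure F)) (hρ : ExtA t ρ) (D : IntermediateField F (AlgebraicClosure F)) :
    IntermediateField F (AlgebraicClosure F) :=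
  { D.toSubfield.comap (ρ : (AlgebraicClosure F) →+* (AlgebraicClosure F)) with
    algebraMap_mem' := fun c => by
      change ρ (algebraMap F (AlgebraicClosure F) c) ∈ D
      rw [hρ c]
      exact D.algebraMap_mem _ }

omit [CharZero F] in
theorem mem_pull (t : F ≃+* F) (ρ : (AlgebraicClosure F) ≃+* (AlgebraicClosure F)) (hρ : ExtA t ρ) (D : IntermediateField F (AlgebraicClosure F))
    (x : (AlgebraicClosure F)) : x ∈ pull t ρ hρ D ↔ ρ x ∈ D := Iff.rfl

omit [CharZero F] in
/-- reducible over an intermediate field -/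
theorem red_of (f : F[X]) (hf : f.Monic) (D : IntermediateField F (AlgebraicClosure F)) (u v : (AlgebraicClosure F)[X]) (hu : u.Monic)
    (hv : v.Monic) (hu0 : u.natDegree ≠ 0) (hv0 : v.natDegree ≠ 0)
    (huv : u * v = f.map (algebraMap F (AlgebraicClosure F))) (huD : ∀ n, u.coeff n ∈ D) (hvD : ∀ n, v.coeff n ∈ D) :
    ¬ Irreducible (f.map (algebraMap F D)) := by
  have hl : ∀ w : (AlgebraicClosure F)[X], (∀ n, w.coeff n ∈ D) → w ∈ lifts (algebraMap D (AlgebraicClosure F)) := by
    intro w hw
    rw [lifts_iff_coeff_lifts]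
    intro n
    exact ⟨⟨_, hw n⟩, rfl⟩
  obtain ⟨u0, hu1, hu2, hu3⟩ := lifts_and_natDegree_eq_and_monic (hl u huD) hu
  obtain ⟨v0, hv1, hv2, hv3⟩ := lifts_and_natDegree_eq_and_monic (hl v hvD) hv
  have h1 : u0 * v0 = f.map (algebraMap F D) := by
    apply map_injective (algebraMap D (AlgebraicClosure F)) (algebraMap D (AlgebraicClosure F)).injective
    rw [Polynomial.map_mul, hu1, hv1, Polynomial.map_map, huv]
    rfl
  rw [(hf.map (algebraMap F D)).irreducible_iff_natDegree]
  rintro ⟨-, h2⟩
  rcases h2 u0 v0 hu3 hv3 h1 with h | h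
  · exact hu0 (hu2 ▸ h)
  · exact hv0 (hv2 ▸ h)

omit [CharZero F] in
/-- the coefficients of a monic factor are in the splitting field -/
theorem coeff_split (g : F[X]) (u : (AlgebraicClosure F)[X]) (hu : u.Monic) (hd : u ∣ g.map (algebraMap F (AlgebraicClosure F)))
    (hg0 : g ≠ 0) (n : ℕ) : u.coeff n ∈ IntermediateField.adjoin F (g.rootSet (AlgebraicClosure F)) := by
  set N := IntermediateField.adjoin F (g.rootSet (AlgebraicClosure F)) with hN
  have hsp : u = (u.roots.map (fun a => X - C a)).prod :=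
    (IsAlgClosed.splits u).eq_prod_roots_of_monic hu
  have hmem : u ∈ lifts (algebraMap N (AlgebraicClosure F)) := by
    rw [hsp]
    apply Subsemiring.multiset_prod_mem
    intro p hp
    obtain ⟨x, hx, rfl⟩ := Multiset.mem_map.1 hp
    have hxr : x ∈ g.rootSet (AlgebraicClosure F) := by
      rw [mem_rootSet']
      have h0 : g.map (algebraMap F (AlgebraicClosure F)) ≠ 0 := (Polynomial.map_ne_zero_iff
        (algebraMap F (AlgebraicClosure F)).injective).2 hg0
      refine ⟨h0, ?_⟩
      have h1 := (mem_roots'.1 hx).2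
      obtain ⟨w, hw⟩ := hd
      rw [aeval_def, ← eval_map, hw, eval_mul, h1.eq_zero, zero_mul]
    have hxN : x ∈ N := IntermediateField.subset_adjoin F _ hxr
    rw [lifts_iff_coeff_lifts]
    intro m
    have h2 : (X - C x : (AlgebraicClosure F)[X]) = (X - C (⟨x, hxN⟩ : N)).map (algebraMap N (AlgebraicClosure F)) := by
      rw [Polynomial.map_sub, map_X, map_C]
      rfl
    rw [h2, coeff_map]
    exact ⟨_, rfl⟩
  rw [lifts_iff_coeff_lifts] at hmem
  obtain ⟨c, hc⟩ := hmem n
  rw [← hc]
  exact c.2

theorem fin_below (N : IntermediateField F (AlgebraicClosure F)) [FiniteDimensional F N] :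
    {D : IntermediateField F (AlgebraicClosure F) | D ≤ N}.Finite := by
  have h1 : Finite (IntermediateField F N) := by
    rw [← Field.exists_primitive_element_iff_finite_intermediateField]
    exact ⟨inferInstance, Field.exists_primitive_element F N⟩
  refine (Set.finite_range (fun D : IntermediateField F N => IntermediateField.lift D)).subset ?_
  intro D hD
  exact ⟨IntermediateField.restrict hD, IntermediateField.lift_restrict hD⟩

omit [CharZero F] in
/-- the local step -/
theorem one_step (t : F ≃+* F) (f : F[X]) (hf : f.Monic) (hirr : Irreducible f)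
    (hbad : ¬ Irreducible ((f.map (t : F →+* F)).map (AdjoinRoot.of f))) :
    ∃ (D D' : IntermediateField F (AlgebraicClosure F)) (ρ : (AlgebraicClosure F) ≃+* (AlgebraicClosure F)), ExtA t ρ ∧
      D ≤ IntermediateField.adjoin F (f.rootSet (AlgebraicClosure F)) ∧
      D' ≤ IntermediateField.adjoin F (f.rootSet (AlgebraicClosure F)) ∧ (∀ x, x ∈ D' ↔ ρ x ∈ D) ∧
      ¬ Irreducible (f.map (algebraMap F D')) := by
  obtain ⟨ρ, hρ⟩ := ext_exists t
  have _ : Fact (Irreducible f) := ⟨hirr⟩
  set g := f.map (t : F →+* F) with hg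
  have hgm : g.Monic := hf.map _
  have hg1 : g.natDegree = f.natDegree := natDegree_map_eq_of_injective t.injective _
  have hfd : 0 < f.natDegree := hirr.natDegree_pos
  -- the factorization
  rw [(hgm.map (AdjoinRoot.of f)).irreducible_iff_natDegree] at hbad
  have hne1 : g.map (AdjoinRoot.of f) ≠ 1 := by
    intro h
    have h1 := congrArg natDegree h
    rw [natDegree_map_eq_of_injective (AdjoinRoot.of f).injective, natDegree_one, hg1] at h1
    omega
  push Not at hbad
  obtain ⟨u, v, hu, hv, huv, hu0, hv0⟩ := hbad hne1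
  obtain ⟨θ, hθ⟩ := IsAlgClosed.exists_root (f.map (algebraMap F (AlgebraicClosure F))) (by
    rw [degree_map]
    exact (degree_pos_of_irreducible hirr).ne')
  have hθ' : f.eval₂ (algebraMap F (AlgebraicClosure F)) θ = 0 := by
    rw [← eval_map]
    exact hθ
  set lam : AdjoinRoot f →+* (AlgebraicClosure F) := AdjoinRoot.lift (algebraMap F (AlgebraicClosure F)) θ hθ' with hlam
  have hlam1 : lam.comp (AdjoinRoot.of f) = algebraMap F (AlgebraicClosure F) := by
    ext c
    exact AdjoinRoot.lift_of hθ'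
  set N := IntermediateField.adjoin F (f.rootSet (AlgebraicClosure F)) with hN
  have hθN : θ ∈ N := by
    apply IntermediateField.subset_adjoin
    rw [mem_rootSet']
    exact ⟨(Polynomial.map_ne_zero_iff (algebraMap F (AlgebraicClosure F)).injective).2 hf.ne_zero, hθ'⟩
  have hlamN : ∀ y, lam y ∈ N := by
    intro y
    obtain ⟨p, rfl⟩ := AdjoinRoot.mk_surjective y
    have h1 : lam (AdjoinRoot.mk f p) = aeval θ p := AdjoinRoot.lift_mk hθ' p
    rw [h1]
    have h2 : aeval θ p = ((aeval (⟨θ, hθN⟩ : N) p : N) : (AlgebraicClosure F)) := by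
      have h3 := (aeval_algebraMap_apply (AlgebraicClosure F) (⟨θ, hθN⟩ : N) p)
      exact h3
    rw [h2]
    exact (aeval (⟨θ, hθN⟩ : N) p).2
  set D : IntermediateField F (AlgebraicClosure F) := N ⊓ IntermediateField.adjoin F (g.rootSet (AlgebraicClosure F)) with hDdef
  have huv' : u.map lam * v.map lam = g.map (algebraMap F (AlgebraicClosure F)) := by
    rw [← Polynomial.map_mul, huv, Polynomial.map_map, hlam1]
  have huD : ∀ n, (u.map lam).coeff n ∈ D := by
    intro n
    rw [hDdef, IntermediateField.mem_inf]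
    refine ⟨by rw [coeff_map]; exact hlamN _, ?_⟩
    exact coeff_split g _ (hu.map _) ⟨_, huv'.symm⟩ hgm.ne_zero n
  have hvD : ∀ n, (v.map lam).coeff n ∈ D := by
    intro n
    rw [hDdef, IntermediateField.mem_inf]
    refine ⟨by rw [coeff_map]; exact hlamN _, ?_⟩
    exact coeff_split g _ (hv.map _) ⟨_, by rw [mul_comm]; exact huv'.symm⟩ hgm.ne_zero n
  refine ⟨D, pull t ρ hρ D, ρ, hρ, inf_le_left, ?_, fun x => Iff.rfl, ?_⟩
  · intro x hx
    rw [mem_pull, hDdef, IntermediateField.mem_inf] at hx
    have hρ' : ExtA t.symm ρ.symm := by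
      intro c
      rw [RingEquiv.symm_apply_eq, hρ, RingEquiv.apply_symm_apply]
    have h1 : IntermediateField.adjoin F (g.rootSet (AlgebraicClosure F)) ≤ pull t.symm ρ.symm hρ' N := by
      rw [IntermediateField.adjoin_le_iff]
      intro y hy
      change ρ.symm y ∈ N
      apply IntermediateField.subset_adjoin
      rw [mem_rootSet'] at hy ⊢
      refine ⟨(Polynomial.map_ne_zero_iff (algebraMap F (AlgebraicClosure F)).injective).2 hf.ne_zero, ?_⟩
      apply ρ.injective
      rw [map_zero, ← hy.2, aeval_def, aeval_def]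
      have h2 := hom_eval₂ f (algebraMap F (AlgebraicClosure F)) (ρ : (AlgebraicClosure F) →+* (AlgebraicClosure F)) (ρ.symm y)
      have h3 : (ρ : (AlgebraicClosure F) →+* (AlgebraicClosure F)).comp (algebraMap F (AlgebraicClosure F)) = (algebraMap F (AlgebraicClosure F)).comp (t : F →+* F) :=
        RingHom.ext hρ
      rw [h3] at h2
      refine h2.trans ?_
      rw [hg, eval₂_map]
      congr 1
      exact ρ.apply_symm_apply y
    have h2 := h1 hx.2
    rw [mem_pull, RingEquiv.symm_apply_apply] at h2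
    exact h2
  · have hcoe : ((ρ.symm : (AlgebraicClosure F) ≃+* (AlgebraicClosure F)) : (AlgebraicClosure F) →+* (AlgebraicClosure F)).comp ((algebraMap F (AlgebraicClosure F)).comp (t : F →+* F)) =
        algebraMap F (AlgebraicClosure F) := by
      refine RingHom.ext fun c => ?_
      change ρ.symm (algebraMap F (AlgebraicClosure F) (t c)) = _
      rw [← hρ c, RingEquiv.symm_apply_apply]
    refine red_of f hf _ ((u.map lam).map ((ρ.symm : (AlgebraicClosure F) ≃+* (AlgebraicClosure F)) : (AlgebraicClosure F) →+* (AlgebraicClosure F)))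
      ((v.map lam).map ((ρ.symm : (AlgebraicClosure F) ≃+* (AlgebraicClosure F)) : (AlgebraicClosure F) →+* (AlgebraicClosure F))) ((hu.map _).map _) ((hv.map _).map _)
      ?_ ?_ ?_ ?_ ?_
    · rw [natDegree_map_eq_of_injective (RingHom.injective _),
        natDegree_map_eq_of_injective (RingHom.injective _)]
      exact hu0
    · rw [natDegree_map_eq_of_injective (RingHom.injective _),
        natDegree_map_eq_of_injective (RingHom.injective _)]
      exact hv0
    · rw [← Polynomial.map_mul, huv', hg, Polynomial.map_map, Polynomial.map_map]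
      exact congrArg (fun φ : F →+* (AlgebraicClosure F) => f.map φ) hcoe
    · intro n
      rw [coeff_map, mem_pull]
      change ρ (ρ.symm _) ∈ D
      rw [RingEquiv.apply_symm_apply]
      exact huD n
    · intro n
      rw [coeff_map, mem_pull]
      change ρ (ρ.symm _) ∈ D
      rw [RingEquiv.apply_symm_apply]
      exact hvD n

variable (hdiv : ∀ n : ℕ, 1 ≤ n → ∀ g : G, ∃ g', n • g' = g) (τ : G → F ≃+* F)
  (hτ0 : ∀ c, τ 0 c = c) (hτ : ∀ g h c, τ g (τ h c) = τ (g + h) c)

/-- the stabilizer of an intermediate field -/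
def stabA (D : IntermediateField F (AlgebraicClosure F)) : AddSubgroup G where
  carrier := {h | ∃ ρ : (AlgebraicClosure F) ≃+* (AlgebraicClosure F), ExtA (τ h) ρ ∧ ∀ x, x ∈ D ↔ ρ x ∈ D}
  zero_mem' := ⟨RingEquiv.refl _, fun c => by rw [hτ0]; rfl, fun x => Iff.rfl⟩
  add_mem' := by
    rintro g h ⟨ρ, h1, h2⟩ ⟨ρ', h1', h2'⟩
    refine ⟨ρ'.trans ρ, fun c => ?_, fun x => ?_⟩
    · change ρ (ρ' (algebraMap F (AlgebraicClosure F) c)) = _
      rw [h1', h1, hτ]
    · change x ∈ D ↔ ρ (ρ' x) ∈ D
      rw [← h2, ← h2']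
  neg_mem' := by
    rintro h ⟨ρ, h1, h2⟩
    refine ⟨ρ.symm, fun c => ?_, fun x => ?_⟩
    · rw [RingEquiv.symm_apply_eq, h1, hτ, add_neg_cancel, hτ0]
    · rw [h2 (ρ.symm x), RingEquiv.apply_symm_apply]

omit [CharZero F] in
include hdiv in
theorem add_no_fin (H : AddSubgroup G) [H.FiniteIndex] (g : G) : g ∈ H := by
  obtain ⟨g', rfl⟩ := hdiv H.index
    (Nat.one_le_iff_ne_zero.2 AddSubgroup.FiniteIndex.index_ne_zero) g
  exact AddSubgroup.nsmul_index_mem H g'

include hdiv hτ0 hτ in
theorem stab_exists (f : F[X]) (hf : f.Monic) (hirr : Irreducible f) (B : AddSubgroup G)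
    (hB : ∃ h, h ∉ B)
    (hbad : ∀ h, h ∉ B → ¬ Irreducible ((f.map (τ h : F →+* F)).map (AdjoinRoot.of f))) :
    ∃ D : IntermediateField F (AlgebraicClosure F), FiniteDimensional F D ∧
      (∀ h, ∃ ρ : (AlgebraicClosure F) ≃+* (AlgebraicClosure F), ExtA (τ h) ρ ∧ ∀ x, x ∈ D ↔ ρ x ∈ D) ∧
      ¬ Irreducible (f.map (algebraMap F D)) := by
  classical
  set N := IntermediateField.adjoin F (f.rootSet (AlgebraicClosure F)) with hN
  have hNf : FiniteDimensional F N := by
    refine IntermediateField.finiteDimensional_adjoin fun x hx => ?_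
    exact (Algebra.IsAlgebraic.isAlgebraic x).isIntegral
  have hfin := fin_below N
  set 𝒟 := hfin.toFinset with h𝒟
  -- the good pairs
  set R : IntermediateField F (AlgebraicClosure F) × IntermediateField F (AlgebraicClosure F) → G → Prop := fun π h =>
    ∃ ρ : (AlgebraicClosure F) ≃+* (AlgebraicClosure F), ExtA (τ h) ρ ∧ ∀ x, x ∈ π.2 ↔ ρ x ∈ π.1 with hR
  set good : IntermediateField F (AlgebraicClosure F) × IntermediateField F (AlgebraicClosure F) → Prop := fun π =>
    (∃ h, R π h) ∧ ¬ Irreducible (f.map (algebraMap F π.2)) with hgood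
  have hstep : ∀ h, h ∉ B → ∃ π ∈ 𝒟 ×ˢ 𝒟, R π h ∧ ¬ Irreducible (f.map (algebraMap F π.2)) := by
    intro h hh
    obtain ⟨D, D', ρ, h1, h2, h3, h4, h5⟩ := one_step (τ h) f hf hirr (hbad h hh)
    refine ⟨(D, D'), ?_, ⟨ρ, h1, h4⟩, h5⟩
    rw [Finset.mem_product, h𝒟, Set.Finite.mem_toFinset, Set.Finite.mem_toFinset]
    exact ⟨h2, h3⟩
  let H : Option (IntermediateField F (AlgebraicClosure F) × IntermediateField F (AlgebraicClosure F)) → AddSubgroup G := fun o =>
    match o with
    | none => B
    | some π => if good π then stabA τ hτ0 hτ π.2 else B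
  let g : Option (IntermediateField F (AlgebraicClosure F) × IntermediateField F (AlgebraicClosure F)) → G := fun o =>
    match o with
    | none => 0
    | some π => if hπ : ∃ h, R π h then hπ.choose else 0
  have hcov : ⋃ i ∈ insert none ((𝒟 ×ˢ 𝒟).image some), (g i) +ᵥ (H i : Set G) = Set.univ := by
    rw [Set.eq_univ_iff_forall]
    intro h
    simp only [Set.mem_iUnion]
    by_cases hh : h ∈ B
    · refine ⟨none, Finset.mem_insert_self _ _, ?_⟩
      change h ∈ (0 : G) +ᵥ (B : Set G)
      rw [zero_vadd]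
      exact hh
    · obtain ⟨π, h1, h2, h3⟩ := hstep h hh
      refine ⟨some π, Finset.mem_insert_of_mem (Finset.mem_image_of_mem _ h1), ?_⟩
      have hex : ∃ h, R π h := ⟨h, h2⟩
      have hgd : good π := ⟨hex, h3⟩
      have e1 : H (some π) = stabA τ hτ0 hτ π.2 := if_pos hgd
      have e2 : g (some π) = hex.choose := dif_pos hex
      rw [e1, e2, Set.mem_vadd_set_iff_neg_vadd_mem]
      obtain ⟨ρ, r1, r2⟩ := h2
      obtain ⟨ρ', r1', r2'⟩ := hex.choose_spec
      set h' := hex.choose
      refine ⟨ρ.trans ρ'.symm, fun c => ?_, fun x => ?_⟩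
      · change ρ'.symm (ρ (algebraMap F (AlgebraicClosure F) c)) = _
        rw [r1, RingEquiv.symm_apply_eq, r1', hτ]
        congr 2
        change τ h = τ (h' + (-h' + h))
        rw [add_neg_cancel_left]
      · change x ∈ π.2 ↔ ρ'.symm (ρ x) ∈ π.2
        rw [r2, r2' (ρ'.symm (ρ x)), RingEquiv.apply_symm_apply]
  obtain ⟨o, ho, hfi⟩ := AddSubgroup.exists_finiteIndex_of_leftCoset_cover hcov
  have hnB : ¬ B.FiniteIndex := by
    intro h
    obtain ⟨x, hx⟩ := hB
    exact hx (add_no_fin hdiv B x)
  rcases o with _ | π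
  · exact absurd hfi hnB
  · by_cases hgd : good π
    · have e1 : H (some π) = stabA τ hτ0 hτ π.2 := if_pos hgd
      rw [e1] at hfi
      have hπN : π.2 ≤ N := by
        rcases Finset.mem_insert.1 ho with h1 | h1
        · cases h1
        · obtain ⟨π', h2, h3⟩ := Finset.mem_image.1 h1
          cases h3
          rw [Finset.mem_product, h𝒟, Set.Finite.mem_toFinset, Set.Finite.mem_toFinset] at h2
          exact h2.2
      refine ⟨π.2, ?_, fun h => add_no_fin hdiv (stabA τ hτ0 hτ π.2) h, hgd.2⟩
      exact Module.Finite.of_injective (IntermediateField.inclusion hπN).toLinearMap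
        (IntermediateField.inclusion hπN).injective
    · have e1 : H (some π) = B := if_neg hgd
      rw [e1] at hfi
      exact absurd hfi hnB

end

end Pool.Agent.J4H11.GP
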