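import Pool.Agent.J4H11.GP.G9
import Pool.Agent.J4H11.GP.G5

/-!
# Independence of the generic translates of a cover without unramified subcovers
-/

set_option autoImplicit false
set_option linter.unusedSectionVars false

open Polynomial Pool.Agent.J4H11.RC Pool.Agent.J4H11.SC Pool.Agent.H901R3.MS WeierstrassCurve

attribute [local instance 5000] Classical.propDecidable

namespace Pool.Agent.J4H11.GP

section
variable {C : Type} [Field C] [IsAlgClosed C] [CharZero C] {a b : ℤ}

theorem pb_ti (hnt : NT a b) (hD : Disc (a : C) (b : C))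
    (hC : ∀ S : Set C, S.Finite → ∃ t : C, Transcendental (IntermediateField.adjoin ℚ S) t)
    (f : (Fk C a b)[X]) (hf : f.Monic) (hPB : ∀ n : ℕ, 1 ≤ n → Irreducible (f.map (W hD n 0)))
    (B : AddSubgroup (Pt (a : C) (b : C))) (hB : ∃ h, h ∉ B) :
    ∃ h, h ∉ B ∧ Irreducible ((f.map (W hD 1 h)).map (AdjoinRoot.of f)) := by
  by_contra hcon
  push Not at hcon
  have hirr : Irreducible f := by
    have h1 := hPB 1 le_rfl
    rw [W_one hD hnt, Polynomial.map_id] at h1
    exact h1
  have hchar : CharZero (Fk C a b) := charZero_of_injective_algebraMap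
    (algebraMap C (Fk C a b)).injective
  obtain ⟨D, hDf, hDs, hDr⟩ := stab_exists (F := Fk C a b) (G := Pt (a : C) (b : C))
    (fun n hn g => div_pt hnt hD n hn g) (fun h => We hnt hD h)
    (fun c => by
      change W hD 1 0 c = c
      rw [W_one hD hnt]
      rfl)
    (fun g h c => by
      change W hD 1 g (W hD 1 h c) = W hD 1 (g + h) c
      rw [← W_trans_comp hnt hD]
      rfl) f hf hirr B hB (fun h hh => hcon h hh)
  obtain ⟨θ, hθ⟩ := Field.exists_primitive_element (Fk C a b) D
  have hθi : IsIntegral (Fk C a b) θ := Algebra.IsIntegral.isIntegral θ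
  set μ := minpoly (Fk C a b) θ with hμ
  have hμm : μ.Monic := minpoly.monic hθi
  have hμi : Irreducible μ := minpoly.irreducible hθi
  let ε : AdjoinRoot μ ≃ₐ[Fk C a b] D :=
    (IntermediateField.adjoinRootEquivAdjoin (Fk C a b) hθi).trans
      ((IntermediateField.equivOfEq hθ).trans IntermediateField.topEquiv)
  have hεc : ∀ c, ε (AdjoinRoot.of μ c) = algebraMap (Fk C a b) D c := fun c => ε.commutes c
  have hεs : ∀ c, ε.symm (algebraMap (Fk C a b) D c) = AdjoinRoot.of μ c := fun c =>
    ε.symm.commutes c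
  obtain ⟨e, ρ, he, hρ⟩ := descent hnt hD hC μ hμm hμi (by
    intro h
    obtain ⟨ρ, h1, h2⟩ := hDs h
    let ρD : D ≃+* D :=
      { toFun := fun x => ⟨ρ x.1, (h2 x.1).1 x.2⟩
        invFun := fun x => ⟨ρ.symm x.1, (h2 _).2 (by rw [RingEquiv.apply_symm_apply]; exact x.2)⟩
        left_inv := fun x => Subtype.ext (ρ.symm_apply_apply x.1)
        right_inv := fun x => Subtype.ext (ρ.apply_symm_apply x.1)
        map_mul' := fun x y => Subtype.ext (map_mul ρ x.1 y.1)
        map_add' := fun x y => Subtype.ext (map_add ρ x.1 y.1) }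
    refine ⟨(ε.toRingEquiv.trans ρD).trans ε.symm.toRingEquiv, fun c => ?_⟩
    change ε.symm (ρD (ε (AdjoinRoot.of μ c))) = _
    rw [hεc]
    have h3 : ρD (algebraMap (Fk C a b) D c) = algebraMap (Fk C a b) D (W hD 1 h c) :=
      Subtype.ext (h1 c)
    rw [h3, hεs])
  apply hDr
  set ρD : D →+* Fk C a b := ρ.comp (ε.symm.toRingEquiv : D →+* AdjoinRoot μ) with hρD
  refine Monic.irreducible_of_irreducible_map ρD _ (hf.map _) ?_
  rw [Polynomial.map_map]
  have h4 : ρD.comp (algebraMap (Fk C a b) D) = W hD e 0 := by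
    refine RingHom.ext fun c => ?_
    change ρ (ε.symm (algebraMap (Fk C a b) D c)) = _
    rw [hεs, hρ]
  rw [h4]
  exact hPB e he

end

end Pool.Agent.J4H11.GP
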