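import Pool.Agent.J4H11.GP.G10
import Pool.Agent.J4H11.GN.LocA3

/-!
# Independence of the generic translates: the form used in the sieve
-/

set_option autoImplicit false
set_option linter.unusedSectionVars false

open Polynomial Pool.Agent.J4H11.RC Pool.Agent.J4H11.SC Pool.Agent.H901R3.MS WeierstrassCurve
  Pool.Agent.J4H11.GN

attribute [local instance 5000] Classical.propDecidable

namespace Pool.Agent.J4H11.GP

theorem hC_complex (S : Set ℂ) (hS : S.Finite) :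
    ∃ t : ℂ, Transcendental (IntermediateField.adjoin ℚ S) t := by
  have _ : Fintype S := hS.fintype
  have h1 := ctbl (fun x : S => (x : ℂ))
  rw [Subtype.range_coe] at h1
  by_contra hcon
  push Not at hcon
  apply not_countable_complex
  refine h1.mono fun z _ => ?_
  have h2 := hcon z
  rw [IntermediateField.transcendental_adjoin_iff] at h2
  exact not_not.1 h2

section
variable {a b : ℤ}

/-- the coordinates of the translate of the generic point -/
theorem crd_trans (hD : Disc (a : ℂ) (b : ℂ)) (xh yh : ℂ)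
    (hns : (CV (a : ℂ) (b : ℂ)).toAffine.Nonsingular xh yh) :
    crd (Rg hD + cst hD (Affine.Point.some xh yh hns)) =
      (tX (a : ℂ) (b : ℂ) xh yh, tY (a : ℂ) (b : ℂ) xh yh) := by
  rw [add_comm]
  have hne : algebraMap ℂ (Fk ℂ a b) xh ≠ gX (a : ℂ) (b : ℂ) := by
    intro h
    exact ne_of_trans (g_trans (a : ℂ) (b : ℂ)) xh h.symm
  obtain ⟨h', e⟩ := pm_some (algebraMap ℂ (Fk ℂ a b))
    (disc_of (algebraMap ℂ (Fk ℂ a b)) a b hD) xh yh hns
  have hl : tL (a : ℂ) (b : ℂ) xh yh = (algebraMap ℂ (Fk ℂ a b) yh - gY (a : ℂ) (b : ℂ)) /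
      (algebraMap ℂ (Fk ℂ a b) xh - gX (a : ℂ) (b : ℂ)) := by
    unfold tL
    rw [← neg_sub, ← neg_sub (algebraMap ℂ (Fk ℂ a b) xh), neg_div_neg_eq]
  obtain ⟨h3, e3⟩ := add_ne h' ((nonsingular_iff (disc_of (algebraMap ℂ (Fk ℂ a b)) a b hD)).2
    (eqn_of (a := ((a : Fk ℂ a b))) (b := (b : Fk ℂ a b)) (x := gX (a : ℂ) (b : ℂ))
      (y := gY (a : ℂ) (b : ℂ)) ((nonsingular_iff (disc_of (algebraMap ℂ (Fk ℂ a b)) a b hD)).2 (by
      have h := g_onE (a : ℂ) (b : ℂ)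
      unfold Pool.Agent.J4H11.SC.OnE at h
      rw [map_intCast, map_intCast] at h
      exact h)))) hne (tL (a : ℂ) (b : ℂ) xh yh) (tX (a : ℂ) (b : ℂ) xh yh)
      (tY (a : ℂ) (b : ℂ) xh yh) hl (by
        unfold tX
        ring) (by
        unfold tY
        ring)
  have e4 : cst hD (Affine.Point.some xh yh hns) + Rg hD =
      Affine.Point.some (tX (a : ℂ) (b : ℂ) xh yh) (tY (a : ℂ) (b : ℂ) xh yh) h3 := by
    rw [← e3]
    congr 1
  rw [e4]
  rfl

variable {A0 : Type} [CommRing A0]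

theorem gi_W (hnt : NT a b) (hD : Disc (a : ℂ) (b : ℂ)) (ι0 : A0 →+* ℂ)
    (φ : (MvPolynomial (Fin 2) A0)[X]) (n : ℕ) (hn : 1 ≤ n) (h : Pt (a : ℂ) (b : ℂ)) :
    (GI ι0 a b φ).map (W hD n h) =
      φ.map (ev ((algebraMap ℂ (FFd (a : ℂ) (b : ℂ))).comp ι0) (crd (n • Rg hD + cst hD h)).1
        (crd (n • Rg hD + cst hD h)).2) := by
  unfold GI
  rw [Polynomial.map_map, ev_comp, ← RingHom.comp_assoc, W_alg hnt hD n hn h]
  have h1 := congrArg crd (W_pt hnt hD n hn h (disc_of (algebraMap ℂ (Fk ℂ a b)) a b hD))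
  rw [pm_crd, Rg_crd] at h1
  obtain ⟨h2, h3⟩ := Prod.mk.inj (h1.trans (Prod.mk.eta (p := crd (n • Rg hD + cst hD h))).symm)
  rw [h2, h3]

theorem gi_T (hnt : NT a b) (hD : Disc (a : ℂ) (b : ℂ)) (ι0 : A0 →+* ℂ)
    (φ : (MvPolynomial (Fin 2) A0)[X]) (xh yh : ℂ)
    (hns : (CV (a : ℂ) (b : ℂ)).toAffine.Nonsingular xh yh) :
    (GI ι0 a b φ).map (W hD 1 (Affine.Point.some xh yh hns)) = GT ι0 a b xh yh φ := by
  rw [gi_W hnt hD ι0 φ 1 le_rfl, one_nsmul, crd_trans]
  rfl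

theorem pb_gen [IsDomain A0] (hnt : NT a b) (hD : Disc (a : ℂ) (b : ℂ)) (ι0 : A0 →+* ℂ)
    (hι0 : Function.Injective ι0) (φ : (MvPolynomial (Fin 2) A0)[X]) (hφ : φ.Monic)
    (hPB : ∀ n : ℕ, 1 ≤ n → Irreducible (φ.map
      (ev ((algebraMap ℂ (FFd (a : ℂ) (b : ℂ))).comp ι0) (crd (n • Rg hD)).1
        (crd (n • Rg hD)).2)))
    (xn yn : ℂ) (hxn : ∀ p : A0[X], p.eval₂ ι0 xn = 0 → p = 0)
    (hyn : yn ^ 2 = xn ^ 3 + (a : ℂ) * xn + (b : ℂ)) :
    ∃ xh yh : ℂ, (∀ p : A0[X], p.eval₂ ι0 xh = 0 → p = 0) ∧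
      yh ^ 2 = xh ^ 3 + (a : ℂ) * xh + (b : ℂ) ∧ yh ≠ 0 ∧ TI ι0 a b xh yh φ := by
  let _ : Algebra A0 ℂ := ι0.toAlgebra
  have _ : FaithfulSMul A0 ℂ := (faithfulSMul_iff_algebraMap_injective A0 ℂ).2 hι0
  let _ : Algebra (FractionRing A0) ℂ := FractionRing.liftAlgebra A0 ℂ
  have _ : IsScalarTower A0 (FractionRing A0) ℂ := FractionRing.isScalarTower_liftAlgebra A0 ℂ
  set κ := algebraicClosure (FractionRing A0) ℂ with hκ
  have hκc : IsAlgClosed κ := IsAlgClosure.isAlgClosed (FractionRing A0)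
  have hκ0 : CharZero κ := charZero_of_injective_algebraMap (algebraMap ℚ κ).injective
  set j : κ →+* ℂ := algebraMap κ ℂ with hj
  have hDκ : Disc (a : κ) (b : κ) := disc_down j hD
  let i0 : A0 →+* κ := (algebraMap (FractionRing A0) κ).comp (algebraMap A0 (FractionRing A0))
  have hi0 : j.comp i0 = ι0 := by
    refine RingHom.ext fun c => ?_
    change algebraMap κ ℂ (algebraMap (FractionRing A0) κ (algebraMap A0 (FractionRing A0) c)) = _
    rw [← IsScalarTower.algebraMap_apply, ← IsScalarTower.algebraMap_apply]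
    rfl
  have hi0i : Function.Injective i0 :=
    (algebraMap (FractionRing A0) κ).injective.comp (IsFractionRing.injective A0 (FractionRing A0))
  set B : AddSubgroup (Pt (a : ℂ) (b : ℂ)) := (pm j hD).range with hB
  obtain ⟨h, hhB, hh⟩ := pb_ti hnt hD hC_complex (GI ι0 a b φ) (hφ.map _) (by
    intro n hn
    rw [gi_W hnt hD ι0 φ n hn, map_zero, add_zero]
    exact hPB n hn) B (by
    refine ⟨Affine.Point.some xn yn ((nonsingular_iff hD).2 hyn), ?_⟩
    rintro ⟨c, hc⟩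
    have h1 : (crd (pm j hD c)).1 = xn := congrArg (fun P => (crd P).1) hc
    rw [pm_crd] at h1
    change j (crd c).1 = xn at h1
    have h2 : IsAlgebraic (FractionRing A0) xn := by
      rw [← h1]
      exact mem_algebraicClosure_iff.1 (crd c).1.2
    rw [← IsFractionRing.isAlgebraic_iff A0] at h2
    obtain ⟨p, hp, hp0⟩ := h2
    exact hp (hxn p hp0))
  have hNC : NCr j h := by
    rcases const_or j hDκ h with ⟨c, hc⟩ | h1
    · exact absurd ⟨c, hc⟩ hhB
    · exact h1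
  rcases h with _ | ⟨xh, yh, hns⟩
  · exact absurd rfl hNC.1
  have hE : yh ^ 2 = xh ^ 3 + (a : ℂ) * xh + (b : ℂ) := eqn_of hns
  refine ⟨xh, yh, ?_, hE, ?_, ?_, ?_⟩
  · intro p hp
    have h1 : (p.map i0).eval₂ j xh = 0 := by
      rw [eval₂_map, hi0]
      exact hp
    have h2 := hNC.2 (p.map i0) h1
    exact (Polynomial.map_eq_zero_iff hi0i).1 h2
  · intro h0
    have h1 := hNC.2 (X ^ 3 + (C (a : κ) * X + C (b : κ))) (by
      change eval₂ j xh _ = 0
      have ha : j (a : κ) = (a : ℂ) := map_intCast j a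
      have hb : j (b : κ) = (b : ℂ) := map_intCast j b
      simp only [eval₂_add, eval₂_mul, eval₂_pow, eval₂_X, eval₂_C, ha, hb]
      rw [h0] at hE
      linear_combination -hE)
    have h2 : (X ^ 3 + (C (a : κ) * X + C (b : κ)) : κ[X]).Monic := by
      refine monic_X_pow_add ?_
      exact lt_of_le_of_lt degree_linear_le (by norm_num)
    exact h2.ne_zero h1
  · have h1 := hPB 1 le_rfl
    rw [one_nsmul] at h1
    exact h1
  · rw [← gi_T hnt hD ι0 φ xh yh hns]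
    exact hh

end

end Pool.Agent.J4H11.GP
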