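import Pool.Agent.J4H11.GP.G1

/-!
# The endomorphisms `R ↦ n R + h` of the field of functions
-/

set_option autoImplicit false

open Polynomial Pool.Agent.J4H11.RC Pool.Agent.J4H11.SC Pool.Agent.H901R3.MS WeierstrassCurve

attribute [local instance 5000] Classical.propDecidable

namespace Pool.Agent.J4H11.GP

section
variable {k : Type} [Field k] {a b : ℤ}

/-- over an algebraically closed field a point is constant or transcendental -/
theorem const_or [IsAlgClosed k] {L : Type} [Field L] (ι : k →+* L) (hD : Disc (a : k) (b : k))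
    (Q : Pt (a : L) (b : L)) :
    (∃ c : Pt (a : k) (b : k), pm ι (disc_of ι a b hD) c = Q) ∨ NCr ι Q := by
  by_cases hQ : Q = 0
  · exact Or.inl ⟨0, by rw [hQ, map_zero]⟩
  by_cases h : ∀ p : k[X], p.eval₂ ι (crd Q).1 = 0 → p = 0
  · exact Or.inr ⟨hQ, h⟩
  left
  push Not at h
  obtain ⟨p, hp, hp0⟩ := h
  let _ : Algebra k L := ι.toAlgebra
  obtain ⟨c, hc⟩ := alg_mem (k := k) (z := (crd Q).1) ⟨p, hp0, hp⟩
  have hE := crd_eqn' Q hQ
  have hy : IsAlgebraic k ((crd Q).2) := by
    refine ⟨X ^ 2 - C (c ^ 3 + (a : k) * c + (b : k)), ?_, ?_⟩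
    · apply Monic.ne_zero
      monicity!
    · rw [map_sub, map_pow, aeval_X, aeval_C, hE, ← hc]
      simp only [map_add, map_mul, map_pow, map_intCast]
      ring
  obtain ⟨d, hd⟩ := alg_mem hy
  have he : Eqn (a : k) (b : k) c d := by
    unfold Eqn
    apply ι.injective
    have hc' : ι c = (crd Q).1 := hc
    have hd' : ι d = (crd Q).2 := hd
    simp only [map_add, map_mul, map_pow, map_intCast, hc', hd']
    exact hE
  refine ⟨Affine.Point.some c d ((nonsingular_iff hD).2 he), ?_⟩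
  refine pt_ext (pm_ne _ _ (some_ne _)) hQ ?_
  rw [pm_crd]
  exact Prod.ext hc hd

/-- the constant point -/
noncomputable def cst (hD : Disc (a : k) (b : k)) : Pt (a : k) (b : k) →+
    Pt (a : Fk k a b) (b : Fk k a b) :=
  pm (algebraMap k (Fk k a b)) (disc_of (algebraMap k (Fk k a b)) a b hD)

theorem rg_not_const (hD : Disc (a : k) (b : k)) (c : Pt (a : k) (b : k)) :
    cst hD c ≠ Rg hD := by
  intro h
  have h1 := congrArg (fun P => (crd P).1) h
  simp only [Rg_crd] at h1
  unfold cst at h1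
  rw [pm_crd] at h1
  exact ne_of_trans (g_trans (a : k) (b : k)) _ h1.symm

theorem nc_one [IsAlgClosed k] (hD : Disc (a : k) (b : k)) (h : Pt (a : k) (b : k)) :
    NCr (algebraMap k (Fk k a b)) (Rg hD + cst hD h) := by
  rcases const_or (algebraMap k (Fk k a b)) hD (Rg hD + cst hD h) with ⟨c, hc⟩ | h1
  · exfalso
    apply rg_not_const hD (c - h)
    rw [map_sub]
    have h2 : cst hD c = Rg hD + cst hD h := hc
    rw [h2, add_sub_cancel_right]
  · exact h1

/-- there is a rational point of infinite order -/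
def NT (a b : ℤ) : Prop := ∃ P : Pt (a : ℚ) (b : ℚ), ∀ n : ℕ, 1 ≤ n → n • P ≠ 0

theorem nt_map (hnt : NT a b) [CharZero k] (hD : Disc (a : k) (b : k)) :
    ∃ P : Pt (a : k) (b : k), ∀ n : ℕ, 1 ≤ n → n • P ≠ 0 := by
  obtain ⟨P, hP⟩ := hnt
  refine ⟨pm (Rat.castHom k) hD P, fun n hn h => hP n hn ?_⟩
  rw [← map_nsmul] at h
  have h2 : pm (Rat.castHom k) hD (n • P) = pm (Rat.castHom k) hD 0 := by
    rw [h, map_zero]
  exact pm_inj _ _ h2

theorem nc_all [IsAlgClosed k] [CharZero k] (hnt : NT a b) (hD : Disc (a : k) (b : k)) (n : ℕ)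
    (hn : 1 ≤ n) (h : Pt (a : k) (b : k)) :
    NCr (algebraMap k (Fk k a b)) (n • Rg hD + cst hD h) := by
  rcases const_or (algebraMap k (Fk k a b)) hD (n • Rg hD + cst hD h) with ⟨c, hc⟩ | h1
  · exfalso
    have h2 : cst hD (c - h) = n • Rg hD := by
      have h3 : cst hD c = n • Rg hD + cst hD h := hc
      rw [map_sub, h3, add_sub_cancel_right]
    obtain ⟨g, hg⟩ := nt_map hnt hD
    apply hg n hn
    set τ := ffh (algebraMap k (Fk k a b)) hD _ (nc_one hD g) with hτ
    have e1 := ffh_alg (algebraMap k (Fk k a b)) hD _ (nc_one hD g)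
    have e2 := ffh_pt (algebraMap k (Fk k a b)) hD _ (nc_one hD g)
    rw [← hτ] at e1 e2
    have e3 := congrArg (pm τ (disc_of (algebraMap k (Fk k a b)) a b hD)) h2
    rw [map_nsmul, e2] at e3
    unfold cst at e3
    rw [pm_comp, e1] at e3
    have e4 : cst hD (c - h) = n • (Rg hD + cst hD g) := e3
    rw [h2, nsmul_add] at e4
    have e5 : n • cst hD g = 0 := by
      have e6 : n • Rg hD + 0 = n • Rg hD + n • cst hD g := by rw [add_zero]; exact e4
      exact (add_left_cancel e6).symm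
    rw [← map_nsmul] at e5
    apply pm_inj (algebraMap k (Fk k a b)) (disc_of (algebraMap k (Fk k a b)) a b hD)
    exact e5.trans (map_zero (cst hD)).symm
  · exact h1

/-- the endomorphism `R ↦ n R + h` -/
noncomputable def W (hD : Disc (a : k) (b : k)) (n : ℕ) (h : Pt (a : k) (b : k)) :
    Fk k a b →+* Fk k a b :=
  if hQ : NCr (algebraMap k (Fk k a b)) (n • Rg hD + cst hD h) then
    ffh (algebraMap k (Fk k a b)) hD _ hQ else RingHom.id _

section
variable [IsAlgClosed k] [CharZero k] (hnt : NT a b) (hD : Disc (a : k) (b : k))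
include hnt

theorem W_alg (n : ℕ) (hn : 1 ≤ n) (h : Pt (a : k) (b : k)) :
    (W hD n h).comp (algebraMap k (Fk k a b)) = algebraMap k (Fk k a b) := by
  unfold W
  rw [dif_pos (nc_all hnt hD n hn h)]
  exact ffh_alg _ _ _ _

theorem W_pt (n : ℕ) (hn : 1 ≤ n) (h : Pt (a : k) (b : k))
    (hD' : Disc (a : Fk k a b) (b : Fk k a b)) :
    pm (W hD n h) hD' (Rg hD) = n • Rg hD + cst hD h := by
  unfold W
  rw [dif_pos (nc_all hnt hD n hn h)]
  exact ffh_pt _ _ _ _

theorem W_cst (n : ℕ) (hn : 1 ≤ n) (h : Pt (a : k) (b : k))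
    (hD' : Disc (a : Fk k a b) (b : Fk k a b)) (c : Pt (a : k) (b : k)) :
    pm (W hD n h) hD' (cst hD c) = cst hD c := by
  unfold cst
  rw [pm_comp, W_alg hnt hD n hn h]

theorem W_comp (m n : ℕ) (hm : 1 ≤ m) (hn : 1 ≤ n) (g h : Pt (a : k) (b : k)) :
    (W hD m g).comp (W hD n h) = W hD (n * m) (n • g + h) := by
  have hnm : 1 ≤ n * m := Nat.mul_pos hn hm
  have hD' := disc_of (algebraMap k (Fk k a b)) a b hD
  apply ff_uniq hD hD'
  · rw [RingHom.comp_assoc, W_alg hnt hD n hn h, W_alg hnt hD m hm g, W_alg hnt hD _ hnm]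
  · rw [← pm_comp (W hD n h) (W hD m g) hD' hD', W_pt hnt hD n hn, W_pt hnt hD _ hnm, map_add,
      map_nsmul, W_pt hnt hD m hm, W_cst hnt hD m hm, map_add, map_nsmul, nsmul_add, mul_nsmul',
      add_assoc]

omit hnt in
theorem W_one (hnt : NT a b) : W hD 1 0 = RingHom.id _ := by
  have hD' := disc_of (algebraMap k (Fk k a b)) a b hD
  apply ff_uniq hD hD'
  · rw [W_alg hnt hD 1 le_rfl]
    rfl
  · rw [W_pt hnt hD 1 le_rfl, map_zero, add_zero, one_nsmul, pm_id]

theorem W_trans_comp (g h : Pt (a : k) (b : k)) :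
    (W hD 1 g).comp (W hD 1 h) = W hD 1 (g + h) := by
  rw [W_comp hnt hD 1 1 le_rfl le_rfl, one_nsmul]

/-- translation as an automorphism -/
noncomputable def We (h : Pt (a : k) (b : k)) : Fk k a b ≃+* Fk k a b :=
  RingEquiv.ofRingHom (W hD 1 h) (W hD 1 (-h))
    (by rw [W_trans_comp hnt hD, add_neg_cancel, W_one hD hnt])
    (by rw [W_trans_comp hnt hD, neg_add_cancel, W_one hD hnt])

theorem We_apply (h : Pt (a : k) (b : k)) (u : Fk k a b) : We hnt hD h u = W hD 1 h u := rfl

end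

end

end Pool.Agent.J4H11.GP
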