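import Pool.Agent.J4H11.GP.G2

/-!
# Places of the field of functions; the group of points is divisible
-/

set_option autoImplicit false

open Polynomial Pool.Agent.J4H11.RC Pool.Agent.J4H11.SC Pool.Agent.H901R3.MS WeierstrassCurve

attribute [local instance 5000] Classical.propDecidable

namespace Pool.Agent.J4H11.GP

section
variable {k : Type} [Field k] {a b : ℤ}

theorem alg_over (w : Fk k a b) :
    IsAlgebraic (Algebra.adjoin k {gX (a : k) (b : k)}) w := by
  obtain ⟨P, Q, D, hD, hw⟩ := g_gen (a : k) (b : k) w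
  set x := gX (a : k) (b : k) with hx
  have hmem : ∀ p : k[X], aeval x p ∈ Algebra.adjoin k {x} := fun p => by
    rw [Algebra.adjoin_singleton_eq_range_aeval]
    exact ⟨p, rfl⟩
  set e : k[X] → Algebra.adjoin k {x} := fun p => ⟨aeval x p, hmem p⟩ with he
  have hE : gY (a : k) (b : k) ^ 2 = aeval x (cub (a : k) (b : k)) := by
    rw [aeval_cub]
    exact g_onE (a : k) (b : k)
  refine ⟨C (e (D ^ 2)) * X ^ 2 + C (e (-(2 * P * D))) * X + C (e (P ^ 2 - Q ^ 2 * cub (a : k) (b : k))),
    ?_, ?_⟩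
  · intro h0
    have h1 := congrArg (fun p => p.coeff 2) h0
    simp only [coeff_add, coeff_C_mul, coeff_X_pow, coeff_X, coeff_C, coeff_zero] at h1
    norm_num at h1
    have h2 : aeval x (D ^ 2) = 0 := congrArg Subtype.val h1
    have h3 := trans_inj (g_trans (a : k) (b : k)) h2
    exact hD (pow_eq_zero_iff (two_ne_zero) |>.1 h3)
  · simp only [map_add, map_mul, map_pow, aeval_X, aeval_C]
    have halg : ∀ p : k[X], algebraMap (Algebra.adjoin k {x}) (Fk k a b) (e p) = aeval x p :=
      fun p => rfl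
    rw [halg, halg, halg]
    simp only [map_sub, map_neg, map_mul, map_pow, map_ofNat, ← hE]
    linear_combination (w * aeval x D - aeval x P + aeval x Q * gY (a : k) (b : k)) * hw

theorem td1 (u v : Fk k a b) (hu : Transcendental k u) :
    IsAlgebraic (Algebra.adjoin k {u}) v := by
  have h1 : Algebra.IsAlgebraic (Algebra.adjoin k {gX (a : k) (b : k)}) (Fk k a b) :=
    ⟨alg_over⟩
  have h2 : Algebra.trdeg k (Fk k a b) ≤ 1 := by
    have h3 := Algebra.IsAlgebraic.trdeg_le_cardinalMk k (A := Fk k a b) {gX (a : k) (b : k)}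
    rwa [Cardinal.mk_singleton] at h3
  have h3 : AlgebraicIndependent k (fun _ : Unit => u) := by
    rw [algebraicIndependent_unique_type_iff]
    exact hu
  have h4 := h3.isTranscendenceBasis_of_trdeg_le_of_finite (by simpa using h2)
  have h5 := h4.isAlgebraic
  have h6 : Set.range (fun _ : Unit => u) = {u} := Set.range_const
  rw [h6] at h5
  exact h5.isAlgebraic v

/-- the evaluation of regular functions at a point -/
theorem cr_hom (c : Pt (a : k) (b : k)) (hc : c ≠ 0) : ∃ ε : CRd (a : k) (b : k) →+* k,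
    (∀ P : k[X], ε (Affine.CoordinateRing.mk (CV (a : k) (b : k)).toAffine (C P)) =
      P.eval (crd c).1) ∧
    ε (Affine.CoordinateRing.mk (CV (a : k) (b : k)).toAffine X) = (crd c).2 := by
  have hE := crd_eqn' c hc
  have hev : eval₂ (evalRingHom (crd c).1) (crd c).2
      (CV (a : k) (b : k)).toAffine.polynomial = 0 := by
    rw [poly_eq]
    simp only [eval₂_sub, eval₂_pow, eval₂_X, eval₂_C, coe_evalRingHom]
    have h1 : (cub (a : k) (b : k)).eval (crd c).1 =
        (crd c).1 ^ 3 + (a : k) * (crd c).1 + (b : k) := by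
      simp [cub]
    rw [h1]
    exact sub_eq_zero.2 hE
  exact ⟨AdjoinRoot.lift (evalRingHom (crd c).1) (crd c).2 hev,
    fun P => AdjoinRoot.lift_of hev, AdjoinRoot.lift_root hev⟩

theorem place_exists [IsAlgClosed k] (hD : Disc (a : k) (b : k))
    (Q : Pt (a : Fk k a b) (b : Fk k a b)) (hQ : NCr (algebraMap k (Fk k a b)) Q)
    (c : Pt (a : k) (b : k)) (hc : c ≠ 0) :
    ∃ v : Place (Fk k a b) k, (∀ z : k, algebraMap k (Fk k a b) z ∈ v.A ∧
      v.r (algebraMap k (Fk k a b) z) = z) ∧
      ∀ red : Pt (a : Fk k a b) (b : Fk k a b) →+ Pt (a : k) (b : k), IsRed v a b red →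
        red Q = c := by
  set φ := ffh (algebraMap k (Fk k a b)) hD Q hQ with hφ
  have hφa := ffh_alg (algebraMap k (Fk k a b)) hD Q hQ
  have hφp := congrArg crd (ffh_pt (algebraMap k (Fk k a b)) hD Q hQ)
  rw [← hφ] at hφa hφp
  rw [pm_crd, Rg_crd] at hφp
  obtain ⟨hφx, hφy⟩ := Prod.mk.inj hφp
  set φc := φ.comp (algebraMap (CRd (a : k) (b : k)) (Fk k a b)) with hφc
  have hφci : Function.Injective φc := by
    rw [hφc, RingHom.coe_comp]
    exact φ.injective.comp (IsFractionRing.injective (CRd (a : k) (b : k)) (Fk k a b))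
  obtain ⟨ε, hε1, hε2⟩ := cr_hom c hc
  set e := (RingEquiv.ofBijective φc.rangeRestrict
    ⟨fun x y h => hφci (congrArg Subtype.val h), φc.rangeRestrict_surjective⟩) with he
  set I : Ideal φc.range := RingHom.ker (ε.comp (e.symm : φc.range →+* _)) with hI
  have hItop : I ≠ ⊤ := by
    rw [Ideal.ne_top_iff_one, hI, RingHom.mem_ker, map_one]
    exact one_ne_zero
  obtain ⟨B, hB, hIB⟩ := Ideal.image_subset_nonunits_valuationSubring I hItop
  have hmem : ∀ z, φc z ∈ B := fun z => hB ⟨z, rfl⟩
  have hnu : ∀ z, ε z = 0 → φc z ∈ B.nonunits := by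
    intro z hz
    apply hIB
    refine ⟨e z, ?_, rfl⟩
    change e z ∈ I
    rw [hI, RingHom.mem_ker]
    change ε (e.symm (e z)) = 0
    rw [RingEquiv.symm_apply_apply]
    exact hz
  have hφk : ∀ z : k, φc (Affine.CoordinateRing.mk (CV (a : k) (b : k)).toAffine (C (C z))) =
      algebraMap k (Fk k a b) z := fun z => DFunLike.congr_fun hφa z
  have hk : ∀ z : k, algebraMap k (Fk k a b) z ∈ B := by
    intro z
    rw [← hφk]
    exact hmem _
  have hX : φc (Affine.CoordinateRing.mk (CV (a : k) (b : k)).toAffine (C X)) = (crd Q).1 := hφx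
  have hY : φc (Affine.CoordinateRing.mk (CV (a : k) (b : k)).toAffine X) = (crd Q).2 := hφy
  have hxB : (crd Q).1 ∈ B := by rw [← hX]; exact hmem _
  have hyB : (crd Q).2 ∈ B := by rw [← hY]; exact hmem _
  have hxn : (crd Q).1 - algebraMap k (Fk k a b) (crd c).1 ∈ B.nonunits := by
    rw [← hX, ← hφk, ← map_sub, ← map_sub, ← map_sub]
    apply hnu
    rw [hε1]
    simp
  have hyn : (crd Q).2 - algebraMap k (Fk k a b) (crd c).2 ∈ B.nonunits := by
    rw [← hY, ← hφk, ← map_sub]
    apply hnu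
    rw [map_sub, hε1, hε2]
    simp
  set ι : k →+* B :=
    { toFun := fun z => ⟨algebraMap k (Fk k a b) z, hk z⟩
      map_one' := Subtype.ext (map_one _)
      map_mul' := fun x y => Subtype.ext (map_mul _ x y)
      map_zero' := Subtype.ext (map_zero _)
      map_add' := fun x y => Subtype.ext (map_add _ x y) } with hι
  set j : k →+* IsLocalRing.ResidueField B := (IsLocalRing.residue B).comp ι with hj
  have hres : ∀ x : B, IsLocalRing.residue B x = 0 ↔ (x : Fk k a b) ∈ B.nonunits := by
    intro x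
    rw [IsLocalRing.residue_eq_zero_iff, ValuationSubring.coe_mem_nonunits_iff]
  have hξ0 : (crd Q).1 - algebraMap k (Fk k a b) (crd c).1 ≠ 0 := by
    intro h0
    have h1 := hQ.2 (X - C (crd c).1) (by
      rw [eval₂_sub, eval₂_X, eval₂_C]
      exact h0)
    exact X_sub_C_ne_zero _ h1
  have hjs : Function.Surjective j := by
    intro t
    obtain ⟨u, rfl⟩ := IsLocalRing.residue_surjective t
    by_cases hu : Transcendental k (u : Fk k a b)
    · obtain ⟨q, hq0, hq⟩ := (td1 (u : Fk k a b) _ hu).exists_nonzero_coeff_and_aeval_eq_zero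
        (mem_nonZeroDivisors_of_ne_zero hξ0)
      set ξ := (crd Q).1 - algebraMap k (Fk k a b) (crd c).1 with hξ
      have hξB : ξ ∈ B := sub_mem hxB (hk _)
      have hpB : ∀ g : k[X], aeval (u : Fk k a b) g ∈ B := by
        intro g
        have h1 : aeval (u : Fk k a b) g = ((g.eval₂ ι u : B) : Fk k a b) := by
          rw [aeval_def]
          exact (hom_eval₂ g ι B.subtype u).symm
        rw [h1]
        exact (g.eval₂ ι u).2
      have haB : ∀ c : Algebra.adjoin k {(u : Fk k a b)}, (c : Fk k a b) ∈ B := by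
        rintro ⟨c, hc⟩
        rw [Algebra.adjoin_singleton_eq_range_aeval] at hc
        obtain ⟨g, rfl⟩ := hc
        exact hpB g
      have hdB : aeval ξ q.divX ∈ B := by
        rw [aeval_eq_sum_range]
        refine sum_mem fun n _ => ?_
        rw [Algebra.smul_def]
        exact mul_mem (haB _) (pow_mem hξB _)
      obtain ⟨g0, hg0⟩ : ∃ g0 : k[X], aeval (u : Fk k a b) g0 = ((q.coeff 0 : _) : Fk k a b) := by
        have h1 : ∀ w ∈ Algebra.adjoin k {(u : Fk k a b)}, ∃ g0 : k[X], aeval (u : Fk k a b) g0 = w := by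
          intro w hw
          rw [Algebra.adjoin_singleton_eq_range_aeval] at hw
          exact hw
        exact h1 _ (q.coeff 0).2
      have hg0ne : g0 ≠ 0 := by
        intro h0
        rw [h0, map_zero] at hg0
        exact hq0 (Subtype.ext hg0.symm)
      have hqe : aeval ξ q.divX * ξ + ((q.coeff 0 : _) : Fk k a b) = 0 := by
        have h1 := congrArg (aeval ξ) (divX_mul_X_add q)
        rw [map_add, map_mul, aeval_X, aeval_C, hq] at h1
        exact h1
      have hg0B : IsLocalRing.residue B ⟨aeval (u : Fk k a b) g0, hpB g0⟩ = 0 := by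
        have h1 : (⟨aeval (u : Fk k a b) g0, hpB g0⟩ : B) = -(⟨_, hdB⟩ * ⟨ξ, hξB⟩) := by
          apply Subtype.ext
          change aeval (u : Fk k a b) g0 = -(aeval ξ q.divX * ξ)
          rw [hg0]
          linear_combination hqe
        rw [h1, map_neg, map_mul, (hres ⟨ξ, hξB⟩).2 hxn, mul_zero, neg_zero]
      let _ : Algebra k (IsLocalRing.ResidueField B) := j.toAlgebra
      have h3 : aeval (IsLocalRing.residue B u) g0 = 0 := by
        rw [← hg0B]
        have h4 : (⟨aeval (u : Fk k a b) g0, hpB g0⟩ : B) = g0.eval₂ ι u := by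
          apply Subtype.ext
          change aeval (u : Fk k a b) g0 = B.subtype (g0.eval₂ ι u)
          rw [hom_eval₂]
          rfl
        rw [h4, hom_eval₂]
        rfl
      obtain ⟨c', hc'⟩ := alg_mem (k := k) (z := IsLocalRing.residue B u) ⟨g0, hg0ne, h3⟩
      exact ⟨c', hc'⟩
    · rw [Transcendental, not_not] at hu
      obtain ⟨c', hc'⟩ := alg_mem hu
      refine ⟨c', ?_⟩
      change IsLocalRing.residue B (ι c') = _
      congr 1
      exact Subtype.ext hc'
  set jE := RingEquiv.ofBijective j ⟨j.injective, hjs⟩ with hjE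
  set ρ : B →+* k := (jE.symm : _ →+* k).comp (IsLocalRing.residue B) with hρ
  have hρ0 : ∀ x : B, ρ x = 0 ↔ (x : Fk k a b) ∈ B.nonunits := by
    intro x
    rw [← hres x]
    change jE.symm (IsLocalRing.residue B x) = 0 ↔ _
    rw [map_eq_zero_iff _ jE.symm.injective]
  have hρk : ∀ z : k, ρ (ι z) = z := by
    intro z
    change jE.symm (jE z) = z
    exact jE.symm_apply_apply z
  let v : Place (Fk k a b) k :=
    { A := B.toSubring
      ρ := ρ
      inv_of_notMem := by
        intro x hx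
        have hx' : x ∉ B := hx
        have h1 : x⁻¹ ∈ B := (B.mem_or_inv_mem x).resolve_left hx'
        exact ⟨h1, (hρ0 ⟨x⁻¹, h1⟩).2 (B.inv_mem_nonunits_iff.2 (Or.inr hx'))⟩
      inv_of_ne := by
        intro x hx
        have h1 : (x : Fk k a b) ∉ B.nonunits := fun h => hx ((hρ0 x).2 h)
        by_contra h2
        apply h1
        have h3 : ((x : Fk k a b)⁻¹)⁻¹ ∈ B.nonunits := B.inv_mem_nonunits_iff.2 (Or.inr h2)
        rwa [inv_inv] at h3 }
  have hvk : ∀ z : k, algebraMap k (Fk k a b) z ∈ v.A ∧ v.r (algebraMap k (Fk k a b) z) = z := by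
    intro z
    refine ⟨hk z, ?_⟩
    rw [v.r_of (hk z)]
    exact hρk z
  have hval : ∀ (u : Fk k a b) (z : k), u ∈ B → u - algebraMap k (Fk k a b) z ∈ B.nonunits →
      u ∈ v.A ∧ v.r u = z := by
    intro u z hu hn
    refine ⟨hu, ?_⟩
    have h1 : v.r (u - algebraMap k (Fk k a b) z) = 0 := by
      have h2 : u - algebraMap k (Fk k a b) z ∈ v.A := sub_mem hu (hk z)
      rw [v.r_of h2]
      exact (hρ0 _).2 hn
    rw [v.r_sub hu (hk z), (hvk z).2] at h1
    exact sub_eq_zero.1 h1
  refine ⟨v, hvk, fun red hred => ?_⟩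
  obtain ⟨hx1, hx2⟩ := hval _ _ hxB hxn
  obtain ⟨hy1, hy2⟩ := hval _ _ hyB hyn
  have hQ0 := hQ.1
  rcases Q with _ | ⟨x, y, h⟩
  · exact absurd rfl hQ0
  · obtain ⟨-, g, e3⟩ := hred.2.2 x y h hx1
    rw [e3]
    refine pt_ext (some_ne g) hc ?_
    exact Prod.ext hx2 hy2

/-- the group of points over an algebraically closed field is divisible -/
theorem div_pt [IsAlgClosed k] [CharZero k] (hnt : NT a b) (hD : Disc (a : k) (b : k)) (n : ℕ)
    (hn : 1 ≤ n) (Q0 : Pt (a : k) (b : k)) : ∃ P, n • P = Q0 := by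
  by_cases hQ : Q0 = 0
  · exact ⟨0, by rw [hQ, nsmul_zero]⟩
  obtain ⟨v, -, hv⟩ := place_exists hD _ (nc_all hnt hD n hn 0) Q0 hQ
  obtain ⟨red, hred⟩ := exists_red v a b hD
  refine ⟨red (Rg hD), ?_⟩
  have h1 := hv red hred
  rw [map_zero, add_zero, map_nsmul] at h1
  exact h1

end

end Pool.Agent.J4H11.GP
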