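import Mathlib

/-!
# Extensions of divisible abelian groups by finite groups
-/

set_option autoImplicit false

namespace Pool.Agent.J4H11.GP

section
variable {G : Type} [CommGroup G] (hdiv : ∀ n : ℕ, 1 ≤ n → ∀ g : G, ∃ g', g' ^ n = g)
include hdiv

theorem no_fin_index (H : Subgroup G) [H.FiniteIndex] : H = ⊤ := by
  rw [eq_top_iff]
  rintro g -
  obtain ⟨g', rfl⟩ := hdiv H.index (Nat.one_le_iff_ne_zero.2 Subgroup.FiniteIndex.index_ne_zero) g
  exact Subgroup.pow_index_mem H g'

theorem hom_fin {Z : Type} [Group Z] [Finite Z] (f : G →* Z) (g : G) : f g = 1 := by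
  obtain ⟨g', rfl⟩ := hdiv (Nat.card Z) Nat.card_pos g
  rw [map_pow]
  exact pow_card_eq_one'

omit hdiv in
theorem finite_aut (Γ : Type) [Group Γ] [Finite Γ] : Finite (MulAut Γ) :=
  Finite.of_injective (fun σ : MulAut Γ => (σ : Γ → Γ)) fun _ _ h => MulEquiv.ext (congrFun h)

section
variable {E : Type} [Group E] (π : E →* G) [Finite π.ker]

theorem sec_comm (s : G →* E) (g : G) (z : π.ker) : s g * z * (s g)⁻¹ = z := by
  have _ := finite_aut π.ker
  have h1 := hom_fin hdiv ((MulAut.conjNormal : E →* MulAut π.ker).comp s) g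
  have h2 := DFunLike.congr_fun h1 z
  have h3 := congrArg Subtype.val h2
  simpa using h3

theorem gt_unique (s s' : G →* E) (h : ∀ g, π (s g) = π (s' g)) : s = s' := by
  have hmem : ∀ g, (s g)⁻¹ * s' g ∈ π.ker := by
    intro g
    rw [MonoidHom.mem_ker, map_mul, map_inv, h, inv_mul_cancel]
  let f : G →* π.ker :=
    { toFun := fun g => ⟨(s g)⁻¹ * s' g, hmem g⟩
      map_one' := by
        apply Subtype.ext
        simp
      map_mul' := by
        intro g g'
        apply Subtype.ext
        change (s (g * g'))⁻¹ * s' (g * g') = ((s g)⁻¹ * s' g) * ((s g')⁻¹ * s' g')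
        have h1 : s g' * ((s g)⁻¹ * s' g) * (s g')⁻¹ = (s g)⁻¹ * s' g :=
          sec_comm hdiv π s g' ⟨_, hmem g⟩
        rw [map_mul, map_mul, mul_inv_rev]
        have h2 : (s g)⁻¹ * s' g = (s g')⁻¹ * ((s g)⁻¹ * s' g) * s g' := by
          conv_rhs => rw [← h1]
          group
        rw [show (s g')⁻¹ * (s g)⁻¹ * (s' g * s' g') =
          ((s g')⁻¹ * ((s g)⁻¹ * s' g) * s g') * ((s g')⁻¹ * s' g') by group, ← h2] }
  refine MonoidHom.ext fun g => ?_
  have h1 := congrArg Subtype.val (hom_fin hdiv f g)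
  change (s g)⁻¹ * s' g = 1 at h1
  exact (eq_of_inv_mul_eq_one h1)

theorem gt_exists (hπ : Function.Surjective π) :
    ∃ (e : ℕ) (s : G →* E), 1 ≤ e ∧ ∀ g, π (s g) = g ^ e := by
  have _ := finite_aut π.ker
  set c : E →* MulAut π.ker := MulAut.conjNormal with hc
  -- the centralizer
  have hcomm : ∀ x : E, c x = 1 → ∀ z : E, π z = 1 → x * z = z * x := by
    intro x hx z hz
    have h2 := DFunLike.congr_fun hx (⟨z, hz⟩ : π.ker)
    have h3 : x * z * x⁻¹ = z := by
      have := congrArg Subtype.val h2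
      simpa [hc] using this
    calc x * z = (x * z * x⁻¹) * x := by group
      _ = z * x := by rw [h3]
  have hsurj : ∀ g : G, ∃ x : E, c x = 1 ∧ π x = g := by
    intro g
    obtain ⟨g', hg'⟩ := hdiv (Nat.card (MulAut π.ker)) Nat.card_pos g
    obtain ⟨x, hx⟩ := hπ g'
    refine ⟨x ^ Nat.card (MulAut π.ker), ?_, ?_⟩
    · rw [map_pow]
      exact pow_card_eq_one'
    · rw [map_pow, hx, hg']
  have hpow : ∀ z : E, π z = 1 → z ^ Nat.card π.ker = 1 := by
    intro z hz
    have h1 : (⟨z, hz⟩ : π.ker) ^ Nat.card π.ker = 1 := pow_card_eq_one'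
    exact congrArg Subtype.val h1
  -- the centralizer is abelian
  have hab : ∀ x y : E, c x = 1 → c y = 1 → x * y = y * x := by
    intro x y hx hy
    obtain ⟨g', hg'⟩ := hdiv (Nat.card π.ker) Nat.card_pos (π y)
    obtain ⟨y', hy', hπy'⟩ := hsurj g'
    -- the commutator with y'
    have hk : π (x * y' * x⁻¹ * y'⁻¹) = 1 := by
      simp only [map_mul, map_inv]
      rw [mul_comm (π x) (π y')]
      group
    set t := x * y' * x⁻¹ * y'⁻¹ with ht
    have ht1 : x * y' = t * y' * x := by rw [ht]; group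
    have hty : y' * t = t * y' := hcomm y' hy' t hk
    have htx : x * t = t * x := hcomm x hx t hk
    have hn : ∀ n : ℕ, x * y' ^ n = t ^ n * y' ^ n * x := by
      intro n
      induction n with
      | zero => simp
      | succ n ih =>
        have h5 : (y' ^ n) * t = t * y' ^ n := by
          have : Commute (y' ^ n) t := (Commute.pow_left hty n)
          exact this
        calc x * y' ^ (n + 1) = (x * y' ^ n) * y' := by rw [pow_succ]; group
          _ = t ^ n * y' ^ n * (x * y') := by rw [ih]; group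
          _ = t ^ n * (y' ^ n * t) * y' * x := by rw [ht1]; group
          _ = t ^ (n + 1) * y' ^ (n + 1) * x := by rw [h5, pow_succ, pow_succ]; group
    have hz : π ((y' ^ Nat.card π.ker)⁻¹ * y) = 1 := by
      rw [map_mul, map_inv, map_pow, hπy', hg', inv_mul_cancel]
    have hxz := hcomm x hx _ hz
    have hxn := hn (Nat.card π.ker)
    rw [hpow t hk, one_mul] at hxn
    have hy2 : y = y' ^ Nat.card π.ker * ((y' ^ Nat.card π.ker)⁻¹ * y) := by group
    calc x * y = x * y' ^ Nat.card π.ker * ((y' ^ Nat.card π.ker)⁻¹ * y) := by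
          rw [mul_assoc, ← hy2]
      _ = y' ^ Nat.card π.ker * (x * ((y' ^ Nat.card π.ker)⁻¹ * y)) := by rw [hxn]; group
      _ = y' ^ Nat.card π.ker * (((y' ^ Nat.card π.ker)⁻¹ * y) * x) := by rw [hxz]
      _ = y * x := by group
  choose f hf1 hf2 using hsurj
  have hwd : ∀ x y : E, c x = 1 → c y = 1 → π x = π y →
      x ^ Nat.card π.ker = y ^ Nat.card π.ker := by
    intro x y hx hy hxy
    have hz : π (x⁻¹ * y) = 1 := by rw [map_mul, map_inv, hxy, inv_mul_cancel]
    have h1 : Commute x (x⁻¹ * y) := hcomm x hx _ hz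
    have h2 : y = x * (x⁻¹ * y) := by group
    rw [h2, h1.mul_pow, hpow _ hz, mul_one]
  refine ⟨Nat.card π.ker,
    { toFun := fun g => f g ^ Nat.card π.ker
      map_one' := ?_
      map_mul' := ?_ }, Nat.card_pos, fun g => ?_⟩
  · rw [hwd (f 1) 1 (hf1 1) (map_one c) (by rw [hf2, map_one]), one_pow]
  · intro g g'
    have h1 : Commute (f g) (f g') := hab _ _ (hf1 g) (hf1 g')
    rw [← h1.mul_pow]
    apply hwd _ _ (hf1 _)
    · rw [map_mul, hf1, hf1, one_mul]
    · rw [hf2, map_mul, hf2, hf2]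
  · change π (f g ^ Nat.card π.ker) = _
    rw [map_pow, hf2]

end

end

end Pool.Agent.J4H11.GP
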