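import Pool.Agent.J4H11.GP.G3

/-!
# Change of the field of constants
-/

set_option autoImplicit false

open Polynomial Pool.Agent.J4H11.RC Pool.Agent.J4H11.SC Pool.Agent.H901R3.MS WeierstrassCurve

attribute [local instance 5000] Classical.propDecidable

namespace Pool.Agent.J4H11.GP

section
variable {k K M : Type} [Field k] [Field K] [Field M] {a b : ℤ}

theorem nc_bc (ι : k →+* K) (hD : Disc (a : K) (b : K)) :
    NCr ((algebraMap K (Fk K a b)).comp ι) (Rg hD) := by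
  refine ⟨Rg_ne hD, fun p hp => ?_⟩
  rw [Rg_crd, ← eval₂_map] at hp
  have h1 : p.map ι = 0 := trans_inj (g_trans (a : K) (b : K)) hp
  exact (Polynomial.map_eq_zero ι).1 h1

/-- change of constants -/
noncomputable def bc (ι : k →+* K) (hDk : Disc (a : k) (b : k)) (hD : Disc (a : K) (b : K)) :
    Fk k a b →+* Fk K a b :=
  ffh ((algebraMap K (Fk K a b)).comp ι) hDk (Rg hD) (nc_bc ι hD)

theorem bc_alg (ι : k →+* K) (hDk : Disc (a : k) (b : k)) (hD : Disc (a : K) (b : K)) :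
    (bc ι hDk hD).comp (algebraMap k (Fk k a b)) = (algebraMap K (Fk K a b)).comp ι :=
  ffh_alg _ _ _ _

theorem bc_pt (ι : k →+* K) (hDk : Disc (a : k) (b : k)) (hD : Disc (a : K) (b : K))
    (hD' : Disc (a : Fk K a b) (b : Fk K a b)) :
    pm (bc ι hDk hD) hD' (Rg hDk) = Rg hD := ffh_pt _ _ _ _

theorem bc_cst (ι : k →+* K) (hDk : Disc (a : k) (b : k)) (hD : Disc (a : K) (b : K))
    (hD' : Disc (a : Fk K a b) (b : Fk K a b)) (c : Pt (a : k) (b : k)) :
    pm (bc ι hDk hD) hD' (cst hDk c) = cst hD (pm ι hD c) := by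
  unfold cst
  rw [pm_comp, pm_comp, bc_alg]

theorem bc_X (ι : k →+* K) (hDk : Disc (a : k) (b : k)) (hD : Disc (a : K) (b : K)) :
    bc ι hDk hD (gX (a : k) (b : k)) = gX (a : K) (b : K) ∧
      bc ι hDk hD (gY (a : k) (b : k)) = gY (a : K) (b : K) := by
  have h := congrArg crd (bc_pt ι hDk hD (disc_of (algebraMap K (Fk K a b)) a b hD))
  rw [pm_crd, Rg_crd, Rg_crd] at h
  exact Prod.mk.inj h

theorem bc_comp (ι : k →+* K) (ι' : K →+* M) (hDk : Disc (a : k) (b : k))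
    (hD : Disc (a : K) (b : K)) (hDM : Disc (a : M) (b : M)) :
    (bc ι' hD hDM).comp (bc ι hDk hD) = bc (ι'.comp ι) hDk hDM := by
  have hD' := disc_of (algebraMap M (Fk M a b)) a b hDM
  apply ff_uniq hDk hD'
  · rw [RingHom.comp_assoc, bc_alg, ← RingHom.comp_assoc, bc_alg, bc_alg, RingHom.comp_assoc]
  · rw [← pm_comp (bc ι hDk hD) (bc ι' hD hDM) (disc_of (algebraMap K (Fk K a b)) a b hD) hD',
      bc_pt, bc_pt, bc_pt]

theorem bc_id (hD : Disc (a : K) (b : K)) : bc (RingHom.id K) hD hD = RingHom.id _ := by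
  have hD' := disc_of (algebraMap K (Fk K a b)) a b hD
  apply ff_uniq hD hD'
  · rw [bc_alg]
    rfl
  · rw [bc_pt, pm_id]

theorem bc_W [IsAlgClosed k] [CharZero k] [IsAlgClosed K] [CharZero K] (hnt : NT a b) (ι : k →+* K)
    (hDk : Disc (a : k) (b : k)) (hD : Disc (a : K) (b : K)) (n : ℕ) (hn : 1 ≤ n)
    (g : Pt (a : k) (b : k)) :
    (bc ι hDk hD).comp (W hDk n g) = (W hD n (pm ι hD g)).comp (bc ι hDk hD) := by
  have hD' := disc_of (algebraMap K (Fk K a b)) a b hD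
  have hDk' := disc_of (algebraMap k (Fk k a b)) a b hDk
  apply ff_uniq hDk hD'
  · rw [RingHom.comp_assoc, W_alg hnt hDk n hn, RingHom.comp_assoc, bc_alg, ← RingHom.comp_assoc,
      W_alg hnt hD n hn]
  · rw [← pm_comp (W hDk n g) (bc ι hDk hD) hDk' hD', ← pm_comp (bc ι hDk hD) _ hD' hD',
      W_pt hnt hDk n hn, map_add, map_nsmul, bc_pt, bc_cst, W_pt hnt hD n hn]

/-- regular at the points with the given coordinate `x` -/
def RegAt (u : Fk K a b) (x0 : K) : Prop :=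
  ∃ P Q D : K[X], D.eval x0 ≠ 0 ∧ u * aeval (gX (a : K) (b : K)) D =
    aeval (gX (a : K) (b : K)) P + aeval (gX (a : K) (b : K)) Q * gY (a : K) (b : K)

theorem reg_fin (u : Fk K a b) : ∃ Z : Finset K, ∀ x0, x0 ∉ Z → RegAt u x0 := by
  obtain ⟨P, Q, D, hD, hu⟩ := g_gen (a : K) (b : K) u
  refine ⟨D.roots.toFinset, fun x0 hx => ⟨P, Q, D, fun h => hx ?_, hu⟩⟩
  rw [Multiset.mem_toFinset, mem_roots hD]
  exact h

theorem reg_finset {ι : Type} (s : Finset ι) (u : ι → Fk K a b) :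
    ∃ Z : Finset K, ∀ x0, x0 ∉ Z → ∀ i ∈ s, RegAt (u i) x0 := by
  have h := fun i => reg_fin (u i)
  choose Z hZ using h
  refine ⟨s.biUnion Z, fun x0 hx i hi => hZ i x0 fun h => hx ?_⟩
  exact Finset.mem_biUnion.2 ⟨i, hi, h⟩

/-- the value at a place of a regular function -/
theorem reg_val (v : Place (Fk K a b) K)
    (hv : ∀ z : K, algebraMap K (Fk K a b) z ∈ v.A ∧ v.r (algebraMap K (Fk K a b) z) = z)
    {x0 y0 : K} (hx : gX (a : K) (b : K) ∈ v.A ∧ v.r (gX (a : K) (b : K)) = x0)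
    (hy : gY (a : K) (b : K) ∈ v.A ∧ v.r (gY (a : K) (b : K)) = y0) (u : Fk K a b)
    (P Q D : K[X]) (hD : D.eval x0 ≠ 0) (hu : u * aeval (gX (a : K) (b : K)) D =
      aeval (gX (a : K) (b : K)) P + aeval (gX (a : K) (b : K)) Q * gY (a : K) (b : K)) :
    u ∈ v.A ∧ v.r u = (P.eval x0 + Q.eval x0 * y0) / D.eval x0 := by
  have hpoly : ∀ p : K[X], aeval (gX (a : K) (b : K)) p ∈ v.A ∧
      v.r (aeval (gX (a : K) (b : K)) p) = p.eval x0 := by
    intro p
    induction p using Polynomial.induction_on with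
    | C c => rw [aeval_C, eval_C]; exact hv c
    | add p q hp hq =>
      rw [map_add, eval_add]
      exact ⟨v.A.add_mem hp.1 hq.1, by rw [v.r_add hp.1 hq.1, hp.2, hq.2]⟩
    | monomial n c _ =>
      rw [map_mul, aeval_C, map_pow, aeval_X, eval_mul, eval_C, eval_pow, eval_X]
      refine ⟨v.A.mul_mem (hv c).1 (v.A.pow_mem hx.1 _), ?_⟩
      rw [v.r_mul (hv c).1 (v.A.pow_mem hx.1 _), v.r_pow hx.1, (hv c).2, hx.2]
  have hDr : v.r (aeval (gX (a : K) (b : K)) D) ≠ 0 := by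
    rw [(hpoly D).2]
    exact hD
  have hDne : aeval (gX (a : K) (b : K)) D ≠ 0 := v.ne_zero_of_r_ne hDr
  have hu' : u = (aeval (gX (a : K) (b : K)) P + aeval (gX (a : K) (b : K)) Q *
      gY (a : K) (b : K)) / aeval (gX (a : K) (b : K)) D := by
    rw [eq_div_iff hDne]
    exact hu
  have hN : aeval (gX (a : K) (b : K)) P + aeval (gX (a : K) (b : K)) Q *
      gY (a : K) (b : K) ∈ v.A :=
    v.A.add_mem (hpoly P).1 (v.A.mul_mem (hpoly Q).1 hy.1)
  rw [hu']
  refine ⟨v.div_mem hN hDr, ?_⟩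
  rw [v.r_div hN hDr, (hpoly D).2]
  congr 1
  rw [v.r_add (hpoly P).1 (v.A.mul_mem (hpoly Q).1 hy.1), v.r_mul (hpoly Q).1 hy.1, (hpoly P).2,
    (hpoly Q).2, hy.2]

theorem bc_rel (ι : k →+* K) (hDk : Disc (a : k) (b : k)) (hD : Disc (a : K) (b : K))
    (u : Fk k a b) (P Q D : k[X]) (hu : u * aeval (gX (a : k) (b : k)) D =
      aeval (gX (a : k) (b : k)) P + aeval (gX (a : k) (b : k)) Q * gY (a : k) (b : k)) :
    bc ι hDk hD u * aeval (gX (a : K) (b : K)) (D.map ι) =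
      aeval (gX (a : K) (b : K)) (P.map ι) +
        aeval (gX (a : K) (b : K)) (Q.map ι) * gY (a : K) (b : K) := by
  obtain ⟨hX, hY⟩ := bc_X ι hDk hD
  have hp : ∀ p : k[X], bc ι hDk hD (aeval (gX (a : k) (b : k)) p) =
      aeval (gX (a : K) (b : K)) (p.map ι) := by
    intro p
    rw [aeval_def, hom_eval₂, bc_alg, aeval_def, eval₂_map, hX]
  have h1 := congrArg (bc ι hDk hD) hu
  rw [map_mul, map_add, map_mul, hp, hp, hp, hY] at h1
  exact h1

/-- every function is defined over a finitely generated field of constants -/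
theorem desc_elem (hD : Disc (a : K) (b : K)) (u : Fk K a b) : ∃ S : Set K, S.Finite ∧
    ∀ {k : Type} [Field k] (ι : k →+* K) (hDk : Disc (a : k) (b : k)), S ⊆ Set.range ι →
      ∃ u' : Fk k a b, bc ι hDk hD u' = u := by
  obtain ⟨P, Q, D, hD0, hu⟩ := g_gen (a : K) (b : K) u
  refine ⟨(P.coeffs : Set K) ∪ Q.coeffs ∪ D.coeffs,
    ((Finset.finite_toSet _).union (Finset.finite_toSet _)).union (Finset.finite_toSet _), ?_⟩
  intro k _ ι hDk hS
  have hl : ∀ p : K[X], (p.coeffs : Set K) ⊆ Set.range ι → ∃ p' : k[X], p'.map ι = p := by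
    intro p hp
    have h1 : p ∈ lifts ι := by
      rw [lifts_iff_coeff_lifts]
      intro n
      by_cases h0 : p.coeff n = 0
      · rw [h0]
        exact ⟨0, map_zero ι⟩
      · exact hp (coeff_mem_coeffs h0)
    exact h1
  obtain ⟨P', hP'⟩ := hl P (fun x hx => hS (Or.inl (Or.inl hx)))
  obtain ⟨Q', hQ'⟩ := hl Q (fun x hx => hS (Or.inl (Or.inr hx)))
  obtain ⟨D', hD'⟩ := hl D (fun x hx => hS (Or.inr hx))
  have hD'0 : D' ≠ 0 := by
    rintro rfl
    rw [Polynomial.map_zero] at hD'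
    exact hD0 hD'.symm
  have hne : aeval (gX (a : k) (b : k)) D' ≠ 0 := fun h0 =>
    hD'0 (trans_inj (g_trans (a : k) (b : k)) h0)
  refine ⟨(aeval (gX (a : k) (b : k)) P' + aeval (gX (a : k) (b : k)) Q' * gY (a : k) (b : k)) /
    aeval (gX (a : k) (b : k)) D', ?_⟩
  have h1 := bc_rel ι hDk hD _ P' Q' D' (div_mul_cancel₀ (aeval (gX (a : k) (b : k)) P' +
    aeval (gX (a : k) (b : k)) Q' * gY (a : k) (b : k)) hne)
  rw [hP', hQ', hD', ← hu] at h1
  apply mul_right_cancel₀ _ h1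
  intro h0
  exact hD0 (trans_inj (g_trans (a : K) (b : K)) h0)

/-- invariance of the values of the functions which are invariant under an automorphism of the
constants -/
theorem fix_val (hD : Disc (a : K) (b : K)) (v : Place (Fk K a b) K)
    (hv : ∀ z : K, algebraMap K (Fk K a b) z ∈ v.A ∧ v.r (algebraMap K (Fk K a b) z) = z)
    {x0 y0 : K} (hx : gX (a : K) (b : K) ∈ v.A ∧ v.r (gX (a : K) (b : K)) = x0)
    (hy : gY (a : K) (b : K) ∈ v.A ∧ v.r (gY (a : K) (b : K)) = y0) (σ : K →+* K)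
    (hσx : σ x0 = x0) (hσy : σ y0 = y0) (u : Fk K a b) (hu : bc σ hD hD u = u)
    (hreg : RegAt u x0) : σ (v.r u) = v.r u := by
  obtain ⟨P, Q, D, hD0, hrel⟩ := hreg
  have h1 := (reg_val v hv hx hy u P Q D hD0 hrel).2
  have h2 := bc_rel σ hD hD u P Q D hrel
  rw [hu] at h2
  have he : ∀ p : K[X], (p.map σ).eval x0 = σ (p.eval x0) := by
    intro p
    conv_lhs => rw [← hσx]
    rw [eval_map, eval₂_at_apply]
  have hD1 : (D.map σ).eval x0 ≠ 0 := by
    rw [he]
    exact (_root_.map_ne_zero σ).2 hD0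
  have h3 := (reg_val v hv hx hy u _ _ _ hD1 h2).2
  rw [he, he, he] at h3
  conv_lhs => rw [h1]
  rw [h3, map_div₀, map_add, map_mul, hσy]

end

end Pool.Agent.J4H11.GP
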