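import Pool.Agent.J4H11.GP.G6
import Pool.Agent.J4H11.GP.G4

/-!
# The group of the automorphisms above the translations, and its section
-/

set_option autoImplicit false
set_option linter.unusedSectionVars false

open Polynomial Pool.Agent.J4H11.RC Pool.Agent.J4H11.SC Pool.Agent.H901R3.MS WeierstrassCurve

attribute [local instance 5000] Classical.propDecidable

namespace Pool.Agent.J4H11.GP

section
variable {C : Type} [Field C] [IsAlgClosed C] [CharZero C] {a b : ℤ} (hnt : NT a b)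
  (hD : Disc (a : C) (b : C)) (μ : (Fk C a b)[X])

/-- the automorphisms above the translations -/
noncomputable def GG : Subgroup (Multiplicative (Pt (a : C) (b : C)) × RingAut (AdjoinRoot μ)) where
  carrier := {x | ∀ c, x.2 (AdjoinRoot.of μ c) =
    AdjoinRoot.of μ (We hnt hD (Multiplicative.toAdd x.1) c)}
  one_mem' := by
    intro c
    change AdjoinRoot.of μ c = AdjoinRoot.of μ (W hD 1 0 c)
    rw [W_one hD hnt]
    rfl
  mul_mem' := by
    intro x y hx hy c
    change x.2 (y.2 (AdjoinRoot.of μ c)) = AdjoinRoot.of μ (W hD 1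
      (Multiplicative.toAdd x.1 + Multiplicative.toAdd y.1) c)
    rw [hy, hx, ← W_trans_comp hnt hD]
    rfl
  inv_mem' := by
    intro x hx c
    change x.2.symm (AdjoinRoot.of μ c) = AdjoinRoot.of μ (W hD 1 (-Multiplicative.toAdd x.1) c)
    rw [RingEquiv.symm_apply_eq, hx]
    change _ = AdjoinRoot.of μ ((W hD 1 _).comp (W hD 1 _) c)
    rw [W_trans_comp hnt hD, add_neg_cancel, W_one hD hnt]
    rfl

/-- the projection -/
noncomputable def GGp : GG hnt hD μ →* Multiplicative (Pt (a : C) (b : C)) :=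
  (MonoidHom.fst _ _).comp (GG hnt hD μ).subtype

theorem GGp_ker (hirr : Irreducible μ) : Finite (GGp hnt hD μ).ker := by
  have _ : Fact (Irreducible μ) := ⟨hirr⟩
  let f : (GGp hnt hD μ).ker → μ.rootSet (AdjoinRoot μ) := fun x =>
    ⟨x.1.1.2 (AdjoinRoot.root μ), by
      rw [mem_rootSet']
      refine ⟨(Polynomial.map_ne_zero_iff (AdjoinRoot.of μ).injective).2 hirr.ne_zero, ?_⟩
      have h1 : x.1.1.1 = 1 := x.2
      have h2 : ∀ c, x.1.1.2 (AdjoinRoot.of μ c) = AdjoinRoot.of μ c := by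
        intro c
        have h3 := x.1.2 c
        change x.1.1.2 (AdjoinRoot.of μ c) = AdjoinRoot.of μ
          (W hD 1 (Multiplicative.toAdd x.1.1.1) c) at h3
        rw [h1] at h3
        change _ = AdjoinRoot.of μ (W hD 1 0 c) at h3
        rw [W_one hD hnt] at h3
        exact h3
      have h4 : ((x.1.1.2 : AdjoinRoot μ ≃+* AdjoinRoot μ) : AdjoinRoot μ →+* AdjoinRoot μ).comp
          (AdjoinRoot.of μ) = AdjoinRoot.of μ := RingHom.ext h2
      have h5 := hom_eval₂ μ (AdjoinRoot.of μ)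
        ((x.1.1.2 : AdjoinRoot μ ≃+* AdjoinRoot μ) : AdjoinRoot μ →+* AdjoinRoot μ)
        (AdjoinRoot.root μ)
      rw [h4, AdjoinRoot.eval₂_root, map_zero] at h5
      exact h5.symm⟩
  refine Finite.of_injective f fun x y hxy => ?_
  apply Subtype.ext
  apply Subtype.ext
  have hx1 : x.1.1.1 = 1 := x.2
  have hy1 : y.1.1.1 = 1 := y.2
  refine Prod.ext (hx1.trans hy1.symm) ?_
  have h0 : x.1.1.2 (AdjoinRoot.root μ) = y.1.1.2 (AdjoinRoot.root μ) := congrArg Subtype.val hxy
  have h1 : ((x.1.1.2 : AdjoinRoot μ ≃+* AdjoinRoot μ) : AdjoinRoot μ →+* AdjoinRoot μ) =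
      ((y.1.1.2 : AdjoinRoot μ ≃+* AdjoinRoot μ) : AdjoinRoot μ →+* AdjoinRoot μ) := by
    apply AdjoinRoot.ringHom_ext
    · refine RingHom.ext fun c => ?_
      change x.1.1.2 (AdjoinRoot.of μ c) = y.1.1.2 (AdjoinRoot.of μ c)
      rw [x.1.2 c, y.1.2 c, hx1, hy1]
    · exact h0
  exact RingEquiv.ext fun z => DFunLike.congr_fun h1 z

include hnt hD in
/-- divisibility, multiplicatively -/
theorem hdivM : ∀ n : ℕ, 1 ≤ n → ∀ g : Multiplicative (Pt (a : C) (b : C)), ∃ g', g' ^ n = g := by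
  intro n hn g
  obtain ⟨g', hg'⟩ := div_pt hnt hD n hn (Multiplicative.toAdd g)
  refine ⟨Multiplicative.ofAdd g', ?_⟩
  rw [← ofAdd_nsmul, hg']
  rfl

section
variable (σ : C ≃+* C) (hσ : μ.map (bc (σ : C →+* C) hD hD) = μ)

/-- the automorphism of the functions given by an automorphism of the constants -/
noncomputable def sF : Fk C a b ≃+* Fk C a b :=
  RingEquiv.ofRingHom (bc (σ : C →+* C) hD hD) (bc (σ.symm : C →+* C) hD hD)
    (by
      rw [bc_comp]
      have h : (σ : C →+* C).comp (σ.symm : C →+* C) = RingHom.id C :=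
        RingHom.ext fun x => σ.apply_symm_apply x
      rw [h, bc_id])
    (by
      rw [bc_comp]
      have h : (σ.symm : C →+* C).comp (σ : C →+* C) = RingHom.id C :=
        RingHom.ext fun x => σ.symm_apply_apply x
      rw [h, bc_id])

include hσ in
theorem sF_symm : μ.map (bc (σ.symm : C →+* C) hD hD) = μ := by
  conv_lhs => rw [← hσ]
  rw [Polynomial.map_map, bc_comp]
  have h : (σ.symm : C →+* C).comp (σ : C →+* C) = RingHom.id C :=
    RingHom.ext fun x => σ.symm_apply_apply x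
  rw [h, bc_id, Polynomial.map_id]

/-- the extension which fixes the root -/
noncomputable def sD0 : AdjoinRoot μ →+* AdjoinRoot μ :=
  AdjoinRoot.lift ((AdjoinRoot.of μ).comp (bc (σ : C →+* C) hD hD)) (AdjoinRoot.root μ) (by
    rw [← eval₂_map, hσ, AdjoinRoot.eval₂_root])

theorem sD0_of (c : Fk C a b) : sD0 hD μ σ hσ (AdjoinRoot.of μ c) =
    AdjoinRoot.of μ (bc (σ : C →+* C) hD hD c) := AdjoinRoot.lift_of _

theorem sD0_root : sD0 hD μ σ hσ (AdjoinRoot.root μ) = AdjoinRoot.root μ := AdjoinRoot.lift_root _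

/-- the extension which fixes the root -/
noncomputable def sD : RingAut (AdjoinRoot μ) :=
  RingEquiv.ofRingHom (sD0 hD μ σ hσ) (sD0 hD μ σ.symm (sF_symm hD μ σ hσ))
    (by
      apply AdjoinRoot.ringHom_ext
      · refine RingHom.ext fun c => ?_
        change sD0 hD μ σ hσ (sD0 hD μ σ.symm (sF_symm hD μ σ hσ) (AdjoinRoot.of μ c)) = _
        rw [sD0_of, sD0_of]
        congr 1
        exact (sF hD σ).apply_symm_apply c
      · change sD0 hD μ σ hσ (sD0 hD μ σ.symm (sF_symm hD μ σ hσ) (AdjoinRoot.root μ)) = _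
        rw [sD0_root, sD0_root]
        rfl)
    (by
      apply AdjoinRoot.ringHom_ext
      · refine RingHom.ext fun c => ?_
        change sD0 hD μ σ.symm (sF_symm hD μ σ hσ) (sD0 hD μ σ hσ (AdjoinRoot.of μ c)) = _
        rw [sD0_of, sD0_of]
        congr 1
        exact (sF hD σ).symm_apply_apply c
      · change sD0 hD μ σ.symm (sF_symm hD μ σ hσ) (sD0 hD μ σ hσ (AdjoinRoot.root μ)) = _
        rw [sD0_root, sD0_root]
        rfl)

theorem sD_of (c : Fk C a b) : sD hD μ σ hσ (AdjoinRoot.of μ c) =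
    AdjoinRoot.of μ (bc (σ : C →+* C) hD hD c) := sD0_of hD μ σ hσ c

theorem sD_root : sD hD μ σ hσ (AdjoinRoot.root μ) = AdjoinRoot.root μ := sD0_root hD μ σ hσ

theorem sD_symm_of (c : Fk C a b) : (sD hD μ σ hσ)⁻¹ (AdjoinRoot.of μ c) =
    AdjoinRoot.of μ (bc (σ.symm : C →+* C) hD hD c) :=
  sD0_of hD μ σ.symm (sF_symm hD μ σ hσ) c

/-- the action on the points -/
noncomputable def sP (σ : C ≃+* C) : Multiplicative (Pt (a : C) (b : C)) →*
    Multiplicative (Pt (a : C) (b : C)) :=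
  AddMonoidHom.toMultiplicative (pm (σ : C →+* C) hD)

/-- conjugation -/
noncomputable def cS : GG hnt hD μ →* GG hnt hD μ where
  toFun x := ⟨(sP hD σ x.1.1, sD hD μ σ hσ * x.1.2 * (sD hD μ σ hσ)⁻¹), by
    intro c
    change sD hD μ σ hσ (x.1.2 ((sD hD μ σ hσ)⁻¹ (AdjoinRoot.of μ c))) = AdjoinRoot.of μ
      (W hD 1 (pm (σ : C →+* C) hD (Multiplicative.toAdd x.1.1)) c)
    rw [sD_symm_of, x.2, sD_of]
    congr 1
    have h1 := DFunLike.congr_fun (bc_W hnt (σ : C →+* C) hD hD 1 le_rfl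
      (Multiplicative.toAdd x.1.1)) (bc (σ.symm : C →+* C) hD hD c)
    refine h1.trans ?_
    change W hD 1 _ ((sF hD σ) ((sF hD σ).symm c)) = _
    rw [RingEquiv.apply_symm_apply]⟩
  map_one' := by
    apply Subtype.ext
    refine Prod.ext ?_ ?_
    · exact map_one (sP hD σ)
    · change sD hD μ σ hσ * 1 * (sD hD μ σ hσ)⁻¹ = 1
      rw [mul_one, mul_inv_cancel]
  map_mul' x y := by
    apply Subtype.ext
    refine Prod.ext ?_ ?_
    · exact map_mul (sP hD σ) _ _
    · change sD hD μ σ hσ * (x.1.2 * y.1.2) * (sD hD μ σ hσ)⁻¹ =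
        (sD hD μ σ hσ * x.1.2 * (sD hD μ σ hσ)⁻¹) * (sD hD μ σ hσ * y.1.2 * (sD hD μ σ hσ)⁻¹)
      group

/-- the section commutes with the automorphisms of the constants -/
theorem sec_inv (hirr : Irreducible μ) (e : ℕ)
    (s : Multiplicative (Pt (a : C) (b : C)) →* GG hnt hD μ)
    (hs : ∀ g, GGp hnt hD μ (s g) = g ^ e) (g : Pt (a : C) (b : C))
    (hg : pm (σ : C →+* C) hD g = g) :
    sD hD μ σ hσ ((s (Multiplicative.ofAdd g)).1.2 (AdjoinRoot.root μ)) =
      (s (Multiplicative.ofAdd g)).1.2 (AdjoinRoot.root μ) := by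
  have _ := GGp_ker hnt hD μ hirr
  have h1 : (cS hnt hD μ σ hσ).comp (s.comp (sP hD σ.symm)) = s := by
    apply gt_unique (hdivM hnt hD) (GGp hnt hD μ)
    intro g
    rw [hs]
    change sP hD σ (GGp hnt hD μ (s (sP hD σ.symm g))) = g ^ e
    rw [hs, map_pow]
    congr 1
    change Multiplicative.ofAdd (pm (σ : C →+* C) hD (pm (σ.symm : C →+* C) hD
      (Multiplicative.toAdd g))) = g
    rw [pm_comp]
    have h : (σ : C →+* C).comp (σ.symm : C →+* C) = RingHom.id C :=
      RingHom.ext fun x => σ.apply_symm_apply x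
    rw [h, pm_id, ofAdd_toAdd]
  have hg' : pm (σ.symm : C →+* C) hD g = g := by
    conv_lhs => rw [← hg]
    rw [pm_comp]
    have h : (σ.symm : C →+* C).comp (σ : C →+* C) = RingHom.id C :=
      RingHom.ext fun x => σ.symm_apply_apply x
    rw [h, pm_id]
  have h2 := DFunLike.congr_fun h1 (Multiplicative.ofAdd g)
  have h3 : (s (sP hD σ.symm (Multiplicative.ofAdd g))) = s (Multiplicative.ofAdd g) := by
    have h3' : sP hD σ.symm (Multiplicative.ofAdd g) = Multiplicative.ofAdd g :=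
      congrArg Multiplicative.ofAdd hg'
    rw [h3']
  have h4 := congrArg (fun x : GG hnt hD μ => x.1.2) h2
  change sD hD μ σ hσ * (s (sP hD σ.symm (Multiplicative.ofAdd g))).1.2 * (sD hD μ σ hσ)⁻¹ =
    (s (Multiplicative.ofAdd g)).1.2 at h4
  rw [h3] at h4
  have h5 : sD hD μ σ hσ * (s (Multiplicative.ofAdd g)).1.2 =
      (s (Multiplicative.ofAdd g)).1.2 * sD hD μ σ hσ := by
    rw [← mul_inv_eq_iff_eq_mul]
    exact h4
  have h6 := DFunLike.congr_fun h5 (AdjoinRoot.root μ)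
  change sD hD μ σ hσ ((s (Multiplicative.ofAdd g)).1.2 (AdjoinRoot.root μ)) =
    (s (Multiplicative.ofAdd g)).1.2 (sD hD μ σ hσ (AdjoinRoot.root μ)) at h6
  rw [sD_root] at h6
  exact h6

/-- the coefficients are invariant -/
theorem coef_inv (B : (Fk C a b)[X]) (hB : B.degree < μ.degree)
    (h : sD hD μ σ hσ (AdjoinRoot.mk μ B) = AdjoinRoot.mk μ B) (n : ℕ) :
    bc (σ : C →+* C) hD hD (B.coeff n) = B.coeff n := by
  have h1 : sD hD μ σ hσ (AdjoinRoot.mk μ B) =
      AdjoinRoot.mk μ (B.map (bc (σ : C →+* C) hD hD)) := by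
    have h2 : ((sD hD μ σ hσ : AdjoinRoot μ ≃+* AdjoinRoot μ) :
        AdjoinRoot μ →+* AdjoinRoot μ).comp (AdjoinRoot.mk μ) =
        (AdjoinRoot.mk μ).comp (mapRingHom (bc (σ : C →+* C) hD hD)) := by
      apply Polynomial.ringHom_ext
      · intro c
        change sD hD μ σ hσ (AdjoinRoot.of μ c) = AdjoinRoot.mk μ (mapRingHom _ (Polynomial.C c))
        rw [sD_of, coe_mapRingHom, map_C]
        rfl
      · change sD hD μ σ hσ (AdjoinRoot.root μ) = AdjoinRoot.mk μ (mapRingHom _ X)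
        rw [sD_root, coe_mapRingHom, map_X]
        rfl
    exact DFunLike.congr_fun h2 B
  rw [h1] at h
  have h3 : B.map (bc (σ : C →+* C) hD hD) = B := by
    have h4 := AdjoinRoot.mk_eq_mk.1 h
    by_contra hne
    have h5 : B.map (bc (σ : C →+* C) hD hD) - B ≠ 0 := sub_ne_zero.2 hne
    have h6 := degree_le_of_dvd h4 h5
    have h7 : (B.map (bc (σ : C →+* C) hD hD) - B).degree < μ.degree := by
      refine lt_of_le_of_lt (degree_sub_le _ _) ?_
      rw [max_lt_iff]
      exact ⟨lt_of_le_of_lt degree_map_le hB, hB⟩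
    exact absurd h6 (not_le.2 h7)
  conv_rhs => rw [← h3]
  rw [coeff_map]

end

end

end Pool.Agent.J4H11.GP
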