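import Pool.Agent.J4H11.GP.G7
import Pool.Agent.J4H11.GP.Fld

/-!
# Evaluation at a point: the descent theorem
-/

set_option autoImplicit false
set_option linter.unusedSectionVars false

open Polynomial Pool.Agent.J4H11.RC Pool.Agent.J4H11.SC Pool.Agent.H901R3.MS WeierstrassCurve

attribute [local instance 5000] Classical.propDecidable

namespace Pool.Agent.J4H11.GP

section
variable {L M : Type} [Field L] [Field M]

theorem place_poly (v : Place L M) (p : L[X]) (hp : ∀ n, p.coeff n ∈ v.A) :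
    ∃ pA : v.A[X], pA.map v.A.subtype = p ∧ (∀ n, (pA.map v.ρ).coeff n = v.r (p.coeff n)) ∧
      (p.Monic → pA.Monic) := by
  have h1 : p ∈ lifts v.A.subtype := by
    rw [lifts_iff_coeff_lifts]
    intro n
    exact ⟨⟨_, hp n⟩, rfl⟩
  have key : ∀ pA : v.A[X], pA.map v.A.subtype = p → ∀ n, (pA.map v.ρ).coeff n =
      v.r (p.coeff n) := by
    intro pA h n
    rw [coeff_map, ← h, coeff_map]
    have h2 : v.A.subtype (pA.coeff n) ∈ v.A := (pA.coeff n).2
    rw [v.r_of h2]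
    rfl
  by_cases hm : p.Monic
  · obtain ⟨pA, h2, -, h3⟩ := lifts_and_natDegree_eq_and_monic h1 hm
    exact ⟨pA, h2, key pA h2, fun _ => h3⟩
  · obtain ⟨pA, h2⟩ := h1
    exact ⟨pA, h2, key pA h2, fun h => absurd h hm⟩

/-- evaluation of a divisibility -/
theorem eval_core (v : Place L M) (μ Mp B : L[X]) (hdvd : μ ∣ Mp.comp B)
    (μA MA BA : v.A[X]) (h1 : μA.map v.A.subtype = μ) (h1m : μA.Monic)
    (h2 : MA.map v.A.subtype = Mp) (h3 : BA.map v.A.subtype = B) (θ0 : M)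
    (hθ : (μA.map v.ρ).eval θ0 = 0) : (MA.map v.ρ).eval ((BA.map v.ρ).eval θ0) = 0 := by
  have h4 : μA ∣ MA.comp BA := by
    rw [← map_dvd_map v.A.subtype Subtype.val_injective h1m, Polynomial.map_comp, h1, h2, h3]
    exact hdvd
  have h5 := Polynomial.map_dvd v.ρ h4
  rw [Polynomial.map_comp] at h5
  obtain ⟨w, hw⟩ := h5
  have h6 := congrArg (eval θ0) hw
  rw [eval_comp, eval_mul, hθ, zero_mul] at h6
  exact h6

end

section
variable {C : Type} [Field C] [IsAlgClosed C] [CharZero C] {a b : ℤ}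

theorem reg_poly {K : Type} [Field K] (p : (Fk K a b)[X]) :
    ∃ Z : Finset K, ∀ x0, x0 ∉ Z → ∀ n, RegAt (p.coeff n) x0 := by
  obtain ⟨Z, hZ⟩ := reg_finset (Finset.range (p.natDegree + 1)) (fun n => p.coeff n)
  refine ⟨Z, fun x0 hx n => ?_⟩
  by_cases hn : n ∈ Finset.range (p.natDegree + 1)
  · exact hZ x0 hx n hn
  · rw [Finset.mem_range, not_lt] at hn
    have h0 : p.coeff n = 0 := coeff_eq_zero_of_natDegree_lt (Nat.lt_of_succ_le hn)
    refine ⟨0, 0, 1, by simp, ?_⟩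
    rw [h0]
    simp

theorem desc_poly (hD : Disc (a : C) (b : C)) (p : (Fk C a b)[X]) (hp : p.Monic) :
    ∃ S : Set C, S.Finite ∧
    ∀ {k : Type} [Field k] (ι : k →+* C) (hDk : Disc (a : k) (b : k)), S ⊆ Set.range ι →
      ∃ p' : (Fk k a b)[X], p'.map (bc ι hDk hD) = p ∧ p'.Monic ∧
        p'.natDegree = p.natDegree := by
  have h := fun n => desc_elem hD (p.coeff n)
  choose S hS hS2 using h
  refine ⟨⋃ n ∈ Finset.range (p.natDegree + 1), S n,
    Set.Finite.biUnion (Finset.finite_toSet _) (fun n _ => hS n), ?_⟩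
  intro k _ ι hDk hsub
  have h1 : p ∈ lifts (bc ι hDk hD) := by
    rw [lifts_iff_coeff_lifts]
    intro n
    by_cases hn : n ∈ Finset.range (p.natDegree + 1)
    · obtain ⟨u, hu⟩ := hS2 n ι hDk (fun x hx => hsub (Set.mem_biUnion hn hx))
      exact ⟨u, hu⟩
    · rw [Finset.mem_range, not_lt] at hn
      rw [coeff_eq_zero_of_natDegree_lt (Nat.lt_of_succ_le hn)]
      exact ⟨0, map_zero _⟩
  obtain ⟨q, h2, h3, h4⟩ := lifts_and_natDegree_eq_and_monic h1 hp
  exact ⟨q, h2, h4, h3⟩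

theorem disc_down {k K : Type} [Field k] [Field K] (ι : k →+* K) (hD : Disc (a : K) (b : K)) :
    Disc (a : k) (b : k) := by
  unfold Disc at hD ⊢
  intro h0
  apply hD
  have h1 := congrArg ι h0
  simpa only [map_mul, map_add, map_pow, map_ofNat, map_intCast, map_zero] using h1

theorem nc_rg {K : Type} [Field K] (hD : Disc (a : K) (b : K)) :
    NCr (algebraMap K (Fk K a b)) (Rg hD) := by
  have h := nc_bc (RingHom.id K) hD
  rwa [RingHom.comp_id] at h

/-- a point with given coordinate `x` -/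
theorem pt_over {k : Type} [Field k] [IsAlgClosed k] (hD : Disc (a : k) (b : k)) (x : k) :
    ∃ P : Pt (a : k) (b : k), P ≠ 0 ∧ (crd P).1 = x := by
  obtain ⟨y, hy⟩ := IsAlgClosed.exists_pow_nat_eq (x ^ 3 + (a : k) * x + (b : k)) (n := 2)
    (by norm_num)
  exact ⟨Affine.Point.some x y ((nonsingular_iff hD).2 hy), some_ne _, rfl⟩

/-- the evaluation of a function of the field `k(E)` at a translate -/
theorem value_trans {k : Type} [Field k] [IsAlgClosed k] [CharZero k] (hnt : NT a b)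
    (hD : Disc (a : C) (b : C)) (hDk : Disc (a : k) (b : k)) (ι : k →+* C)
    (h : Pt (a : C) (b : C)) (hh : NCr ι h) (e : ℕ) (he : 1 ≤ e) (r : Pt (a : k) (b : k))
    (v : Place (Fk C a b) C) (hv : ∀ z : C, algebraMap C (Fk C a b) z ∈ v.A ∧
      v.r (algebraMap C (Fk C a b) z) = z)
    (red : Pt (a : Fk C a b) (b : Fk C a b) →+ Pt (a : C) (b : C)) (hred : IsRed v a b red)
    (hr : red (Rg hD) = pm ι hD r) (u : Fk k a b) :
    W hD 1 (e • h) (bc ι hDk hD u) ∈ v.A ∧ v.r (W hD 1 (e • h) (bc ι hDk hD u)) =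
      ffh ι hDk h hh (W hDk e r u) := by
  have hD' := disc_of (algebraMap C (Fk C a b)) a b hD
  have hDk' := disc_of (algebraMap k (Fk k a b)) a b hDk
  set j := ffh ι hDk h hh with hj
  have hja : j.comp (algebraMap k (Fk k a b)) = ι := ffh_alg ι hDk h hh
  have hjp : pm j hD (Rg hDk) = h := ffh_pt ι hDk h hh
  set ψ := (W hD 1 (e • h)).comp (bc ι hDk hD) with hψ
  set lam := j.comp (W hDk e r) with hlam
  have hlama : lam.comp (algebraMap k (Fk k a b)) = ι := by
    rw [hlam, RingHom.comp_assoc, W_alg hnt hDk e he, hja]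
  have hψa : ψ.comp (algebraMap k (Fk k a b)) = (algebraMap C (Fk C a b)).comp ι := by
    rw [hψ, RingHom.comp_assoc, bc_alg, ← RingHom.comp_assoc, W_alg hnt hD 1 le_rfl]
  have hlamp : pm lam hD (Rg hDk) = e • h + pm ι hD r := by
    rw [hlam, ← pm_comp (W hDk e r) j hDk' hD, W_pt hnt hDk e he, map_add, map_nsmul, hjp]
    congr 1
    unfold cst
    rw [pm_comp, hja]
  have hψp : pm ψ hD' (Rg hDk) = Rg hD + cst hD (e • h) := by
    rw [hψ, ← pm_comp (bc ι hDk hD) (W hD 1 (e • h)) hD' hD', bc_pt, W_pt hnt hD 1 le_rfl,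
      one_nsmul]
  have hredc : red (cst hD (e • h)) = e • h := by
    unfold cst
    rw [red_pm v _ hD red hred (algebraMap C (Fk C a b)) (RingHom.id C) hv, pm_id]
  have hredψ : red (pm ψ hD' (Rg hDk)) = pm lam hD (Rg hDk) := by
    rw [hψp, map_add, hr, hredc, hlamp, add_comm]
  have hne : red (pm ψ hD' (Rg hDk)) ≠ 0 := by
    rw [hredψ]
    exact pm_ne _ _ (Rg_ne hDk)
  obtain ⟨⟨x1, x2⟩, ⟨y1, y2⟩⟩ := red_crd v red hred _ hne
  rw [hredψ, pm_crd, pm_crd, Rg_crd] at x2 y2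
  rw [pm_crd, Rg_crd] at x1 y1
  refine place_hom v ψ lam (fun c => ?_) ⟨x1, x2⟩ ⟨y1, y2⟩ u
  have e1 : ψ (algebraMap k _ c) = algebraMap C (Fk C a b) (ι c) := DFunLike.congr_fun hψa c
  have e2 : lam (algebraMap k _ c) = ι c := DFunLike.congr_fun hlama c
  rw [e1, e2]
  exact hv (ι c)

end

end Pool.Agent.J4H11.GP
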