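import Pool.Agent.J4H11.GP.G8

/-!
# Extensions of the field of functions invariant under the translations
-/

set_option autoImplicit false
set_option linter.unusedSectionVars false

open Polynomial Pool.Agent.J4H11.RC Pool.Agent.J4H11.SC Pool.Agent.H901R3.MS WeierstrassCurve

attribute [local instance 5000] Classical.propDecidable

namespace Pool.Agent.J4H11.GP

section
variable {C : Type} [Field C] [IsAlgClosed C] [CharZero C] {a b : ℤ}

theorem descent (hnt : NT a b) (hD : Disc (a : C) (b : C))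
    (hC : ∀ S : Set C, S.Finite → ∃ t : C, Transcendental (IntermediateField.adjoin ℚ S) t)
    (μ : (Fk C a b)[X]) (hμ : μ.Monic) (hirr : Irreducible μ)
    (hT : ∀ h : Pt (a : C) (b : C), ∃ ρ : AdjoinRoot μ ≃+* AdjoinRoot μ,
      ∀ c, ρ (AdjoinRoot.of μ c) = AdjoinRoot.of μ (W hD 1 h c)) :
    ∃ (e : ℕ) (ρ : AdjoinRoot μ →+* Fk C a b), 1 ≤ e ∧ ∀ c, ρ (AdjoinRoot.of μ c) = W hD e 0 c := by
  have _ : Fact (Irreducible μ) := ⟨hirr⟩
  have _ := GGp_ker hnt hD μ hirr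
  -- the section
  obtain ⟨e, s, he, hs⟩ := gt_exists (hdivM hnt hD) (GGp hnt hD μ) (by
    intro g
    obtain ⟨ρ, hρ⟩ := hT (Multiplicative.toAdd g)
    exact ⟨⟨(g, ρ), hρ⟩, rfl⟩)
  -- the field of constants
  obtain ⟨S, hSf, hS⟩ := desc_poly hD μ hμ
  obtain ⟨t0, ht0⟩ := hC S hSf
  obtain ⟨k, _, _, _, ι, hSι, hιt, hιL⟩ := field_choice S t0 ht0
  have hDk : Disc (a : k) (b : k) := disc_down ι hD
  obtain ⟨μ', hμ'1, hμ'2, hμ'3⟩ := hS ι hDk hSι
  obtain ⟨h, hh0, hhx⟩ := pt_over hD t0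
  have hh : NCr ι h := ⟨hh0, fun p hp => hιt p (by rw [hhx] at hp; exact hp)⟩
  set j := ffh ι hDk h hh with hj
  have hja : j.comp (algebraMap k (Fk k a b)) = ι := ffh_alg ι hDk h hh
  have hjp : pm j hD (Rg hDk) = h := ffh_pt ι hDk h hh
  have hjc := congrArg crd hjp
  rw [pm_crd, Rg_crd] at hjc
  have hjx : j (gX (a : k) (b : k)) = (crd h).1 := congrArg Prod.fst hjc
  have hjy : j (gY (a : k) (b : k)) = (crd h).2 := congrArg Prod.snd hjc
  -- the automorphism above the translation by `e h`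
  set ρh := (s (Multiplicative.ofAdd h)).1.2 with hρh
  have hρ1 : ∀ c, ρh (AdjoinRoot.of μ c) = AdjoinRoot.of μ (W hD 1 (e • h) c) := by
    intro c
    have h1 := (s (Multiplicative.ofAdd h)).2 c
    have h2 : (s (Multiplicative.ofAdd h)).1.1 = Multiplicative.ofAdd (e • h) := by
      have h3 := hs (Multiplicative.ofAdd h)
      rw [ofAdd_nsmul]
      exact h3
    change ρh (AdjoinRoot.of μ c) = AdjoinRoot.of μ
      (W hD 1 (Multiplicative.toAdd (s (Multiplicative.ofAdd h)).1.1) c) at h1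
    rw [h2] at h1
    exact h1
  obtain ⟨B0, hB0⟩ := AdjoinRoot.mk_surjective (ρh (AdjoinRoot.root μ))
  set B := B0 %ₘ μ with hB
  have hBd : B.degree < μ.degree := degree_modByMonic_lt B0 hμ
  have hB1 : AdjoinRoot.mk μ B = ρh (AdjoinRoot.root μ) := by
    rw [← hB0, AdjoinRoot.mk_eq_mk]
    have h1 := modByMonic_add_div B0 μ
    refine ⟨-(B0 /ₘ μ), ?_⟩
    rw [hB]
    linear_combination h1
  -- the Galois group of the field of constants
  set K := j.fieldRange with hK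
  have hKι : ∀ c, ι c ∈ K := fun c => ⟨algebraMap k _ c, DFunLike.congr_fun hja c⟩
  have hKa : Algebra.IsAlgebraic K C := by
    apply hιL K hKι
    rw [← hhx, ← hjx]
    exact ⟨_, rfl⟩
  have hKcl : IsAlgClosure K C := ⟨inferInstance, hKa⟩
  have hKn : Normal K C := IsAlgClosure.normal K C
  have hKs : Algebra.IsSeparable K C := Algebra.IsAlgebraic.isSeparable_of_perfectField
  have hKg : IsGalois K C := ⟨⟩
  have hσK : ∀ (σ : C ≃ₐ[K] C) (x : C), x ∈ K → σ x = x := fun σ x hx => σ.commutes ⟨x, hx⟩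
  have hσB : ∀ (σ : C ≃ₐ[K] C) (n : ℕ),
      bc ((σ.toRingEquiv : C ≃+* C) : C →+* C) hD hD (B.coeff n) = B.coeff n := by
    intro σ n
    have hσι : ((σ.toRingEquiv : C ≃+* C) : C →+* C).comp ι = ι :=
      RingHom.ext fun c => hσK σ _ (hKι c)
    have hσμ : μ.map (bc ((σ.toRingEquiv : C ≃+* C) : C →+* C) hD hD) = μ := by
      rw [← hμ'1, Polynomial.map_map, bc_comp, hσι]
    have hσh : pm ((σ.toRingEquiv : C ≃+* C) : C →+* C) hD h = h := by
      refine pt_ext (pm_ne _ _ hh0) hh0 ?_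
      rw [pm_crd]
      refine Prod.ext ?_ ?_
      · change σ (crd h).1 = (crd h).1
        apply hσK
        rw [← hjx]
        exact ⟨_, rfl⟩
      · change σ (crd h).2 = (crd h).2
        apply hσK
        rw [← hjy]
        exact ⟨_, rfl⟩
    have h1 := sec_inv hnt hD μ σ.toRingEquiv hσμ hirr e s hs h hσh
    apply coef_inv hD μ σ.toRingEquiv hσμ B hBd
    rw [hB1]
    exact h1
  -- the point `r`
  obtain ⟨Z, hZ⟩ := reg_poly B
  obtain ⟨Z', hZ'⟩ := reg_poly μ'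
  have hinf : Infinite k := inferInstance
  obtain ⟨xr, hxr⟩ : ∃ x : k, x ∉ (Z' ∪ Z.preimage ι ι.injective.injOn) :=
    Infinite.exists_notMem_finset _
  rw [Finset.mem_union, not_or, Finset.mem_preimage] at hxr
  obtain ⟨r, hr0, hrx⟩ := pt_over hDk xr
  have hrC0 : pm ι hD r ≠ 0 := pm_ne _ _ hr0
  obtain ⟨v, hv, hvr⟩ := place_exists hD (Rg hD) (nc_rg hD) (pm ι hD r) hrC0
  obtain ⟨red, hred⟩ := exists_red v a b hD
  have hredr := hvr red hred
  obtain ⟨⟨hx1, hx2⟩, ⟨hy1, hy2⟩⟩ := red_crd v red hred (Rg hD) (by rw [hredr]; exact hrC0)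
  rw [hredr, pm_crd, Rg_crd] at hx2 hy2
  rw [Rg_crd] at hx1 hy1
  -- values of the coefficients
  have hμv : ∀ n, μ.coeff n ∈ v.A ∧ v.r (μ.coeff n) ∈ Set.range ι := by
    intro n
    rw [← hμ'1, coeff_map]
    obtain ⟨P, Q, D, hDr, hrel⟩ := hZ' xr hxr.1 n
    have h1 := bc_rel ι hDk hD _ P Q D hrel
    have he1 : ∀ p : k[X], (p.map ι).eval (ι (crd r).1) = ι (p.eval xr) := by
      intro p
      rw [hrx, eval_map, eval₂_at_apply]
    have hDr' : (D.map ι).eval (ι (crd r).1) ≠ 0 := by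
      rw [he1]
      exact (_root_.map_ne_zero ι).2 hDr
    obtain ⟨h2, h3⟩ := reg_val v hv ⟨hx1, hx2⟩ ⟨hy1, hy2⟩ _ _ _ _ hDr' h1
    refine ⟨h2, (P.eval xr + Q.eval xr * (crd r).2) / D.eval xr, ?_⟩
    rw [h3, he1, he1, he1, map_div₀, map_add, map_mul]
  have hBv : ∀ n, B.coeff n ∈ v.A := by
    intro n
    obtain ⟨P, Q, D, hDr, hrel⟩ := hZ (ι xr) hxr.2 n
    rw [← hrx] at hDr
    exact (reg_val v hv ⟨hx1, hx2⟩ ⟨hy1, hy2⟩ _ P Q D hDr hrel).1
  set Mp := μ.map (W hD 1 (e • h)) with hMp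
  have hMv : ∀ n, Mp.coeff n ∈ v.A ∧ v.r (Mp.coeff n) = j (W hDk e r (μ'.coeff n)) := by
    intro n
    rw [hMp, ← hμ'1, Polynomial.map_map, coeff_map]
    exact value_trans hnt hD hDk ι h hh e he r v hv red hred hredr (μ'.coeff n)
  obtain ⟨μA, a1, a2, a3⟩ := place_poly v μ (fun n => (hμv n).1)
  obtain ⟨MA, b1, b2, -⟩ := place_poly v Mp (fun n => (hMv n).1)
  obtain ⟨BA, c1, c2, -⟩ := place_poly v B hBv
  have hμAm : μA.Monic := a3 hμ
  -- the divisibility
  have hdvd : μ ∣ Mp.comp B := by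
    rw [← AdjoinRoot.mk_eq_zero]
    have h1 : AdjoinRoot.mk μ (Mp.comp B) = Mp.eval₂ (AdjoinRoot.of μ) (AdjoinRoot.mk μ B) := by
      rw [comp, hom_eval₂]
      rfl
    rw [h1, hB1, hMp, eval₂_map]
    have h2 : (AdjoinRoot.of μ).comp (W hD 1 (e • h)) =
        ((ρh : AdjoinRoot μ ≃+* AdjoinRoot μ) : AdjoinRoot μ →+* AdjoinRoot μ).comp
          (AdjoinRoot.of μ) := RingHom.ext fun c => (hρ1 c).symm
    rw [h2]
    have h3 := hom_eval₂ μ (AdjoinRoot.of μ)
      ((ρh : AdjoinRoot μ ≃+* AdjoinRoot μ) : AdjoinRoot μ →+* AdjoinRoot μ) (AdjoinRoot.root μ)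
    rw [AdjoinRoot.eval₂_root, map_zero] at h3
    exact h3.symm
  -- a root of the reduction of `μ`
  obtain ⟨m', hm'1, hm'2, hm'3⟩ := lifts_and_natDegree_eq_and_monic
    (show μA.map v.ρ ∈ lifts ι by
      rw [lifts_iff_coeff_lifts]
      intro n
      rw [a2]
      exact (hμv n).2) (hμAm.map v.ρ)
  have hdeg : m'.degree ≠ 0 := by
    intro h0
    have h1 : m'.natDegree = 0 := natDegree_eq_of_degree_eq_some h0
    have h2 : (μA.map v.ρ).natDegree = μA.natDegree := hμAm.natDegree_map v.ρ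
    have h3 : μ.natDegree = μA.natDegree := by
      rw [← a1]
      exact hμAm.natDegree_map _
    have h4 := hirr.natDegree_pos
    rw [h3, ← h2, ← hm'2, h1] at h4
    exact lt_irrefl _ h4
  obtain ⟨θ', hθ'⟩ := IsAlgClosed.exists_root m' hdeg
  have hθ0 : (μA.map v.ρ).eval (ι θ') = 0 := by
    rw [← hm'1, eval_map, eval₂_at_apply, hθ'.eq_zero, map_zero]
  have hz0 := eval_core v μ Mp B hdvd μA MA BA a1 hμAm b1 c1 (ι θ') hθ0
  set z := (BA.map v.ρ).eval (ι θ') with hz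
  have hMA : MA.map v.ρ = (μ'.map (W hDk e r)).map j := by
    ext n
    rw [b2, (hMv n).2, coeff_map, coeff_map]
  -- `z` is in the field generated by `h`
  have hzK : z ∈ K := by
    have h1 : z ∈ (⊥ : IntermediateField K C) := by
      rw [InfiniteGalois.mem_bot_iff_fixed]
      intro σ
      have h2 : (BA.map v.ρ).map ((σ.toRingEquiv : C ≃+* C) : C →+* C) = BA.map v.ρ := by
        ext n
        rw [coeff_map, c2]
        refine fix_val hD v hv ⟨hx1, hx2⟩ ⟨hy1, hy2⟩ _ ?_ ?_ _ (hσB σ n) ?_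
        · exact hσK σ _ (hKι _)
        · exact hσK σ _ (hKι _)
        · have h3 := hZ (ι xr) hxr.2 n
          rw [← hrx] at h3
          exact h3
      have h3 := eval₂_at_apply (p := BA.map v.ρ) ((σ.toRingEquiv : C ≃+* C) : C →+* C) (ι θ')
      rw [← eval_map, h2] at h3
      have h4 : ((σ.toRingEquiv : C ≃+* C) : C →+* C) (ι θ') = ι θ' := hσK σ _ (hKι _)
      rw [h4] at h3
      exact h3.symm
    obtain ⟨c, hc⟩ := IntermediateField.mem_bot.1 h1
    rw [← hc]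
    exact c.2
  obtain ⟨z', hz'⟩ := hzK
  rw [hMA, ← hz', eval_map, eval₂_at_apply] at hz0
  have hz1 : (μ'.map (W hDk e r)).eval z' = 0 := by
    rw [← _root_.map_eq_zero j]
    exact hz0
  have hz2 : (μ.map (W hD e (pm ι hD r))).eval (bc ι hDk hD z') = 0 := by
    have h1 : μ.map (W hD e (pm ι hD r)) = (μ'.map (W hDk e r)).map (bc ι hDk hD) := by
      rw [← hμ'1, Polynomial.map_map, Polynomial.map_map, bc_W hnt ι hDk hD e he]
    rw [h1, eval_map, eval₂_at_apply, hz1, map_zero]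
  -- the homomorphism
  rw [eval_map] at hz2
  set ρ0 : AdjoinRoot μ →+* Fk C a b := AdjoinRoot.lift (W hD e (pm ι hD r)) (bc ι hDk hD z') hz2
    with hρ0
  obtain ⟨r', hr'⟩ := div_pt hnt hD e he (-(pm ι hD r))
  refine ⟨e, (W hD 1 r').comp ρ0, he, fun c => ?_⟩
  change W hD 1 r' (ρ0 (AdjoinRoot.of μ c)) = _
  have h1 : ρ0 (AdjoinRoot.of μ c) = W hD e (pm ι hD r) c := AdjoinRoot.lift_of hz2
  rw [h1]
  have h2 := DFunLike.congr_fun (W_comp hnt hD 1 e le_rfl he r' (pm ι hD r)) c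
  refine h2.trans ?_
  rw [hr', neg_add_cancel, mul_one]

end

end Pool.Agent.J4H11.GP
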