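import Pool.Agent.J4H11.GP.G11

/-!
# Independence of the decidability instances
-/

set_option autoImplicit false

open Polynomial Module Pool.Agent.J4H11.RC Pool.Agent.J4H11.SC Pool.Agent.H901R3.MS
  WeierstrassCurve Pool.Agent.J4H11.GN

namespace Pool.Agent.J4H11.GP

/-- the multiples of a point do not depend on the decidability instance -/
theorem nsmul_inst {F : Type} [Field F] (W : WeierstrassCurve.Affine F) (d1 d2 : DecidableEq F)
    (n : ℕ) (P : W.Point) :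
    (@Affine.Point.instAddCommGroup F _ W d1).toAddGroup.toSubNegMonoid.toAddMonoid.nsmul n P =
    (@Affine.Point.instAddCommGroup F _ W d2).toAddGroup.toSubNegMonoid.toAddMonoid.nsmul n P := by
  have h : d1 = d2 := Subsingleton.elim _ _
  subst h
  rfl

/-- a group of points of positive rank has a point of infinite order -/
theorem nt_of_rank (a b : ℤ) (h : 1 ≤ finrank ℤ (Pt (a : ℚ) (b : ℚ))) : NT a b := by
  obtain ⟨f, hf⟩ := exists_linearIndependent_of_le_finrank h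
  refine ⟨f 0, fun n hn h0 => ?_⟩
  have h1 : (n : ℤ) • f 0 = 0 := by
    rw [natCast_zsmul]
    exact (nsmul_inst _ _ _ n (f 0)).trans h0
  have h2 := (linearIndependent_iff'.1 hf) Finset.univ (fun _ => (n : ℤ)) (by
    rw [Fin.sum_univ_one]
    exact h1) 0 (Finset.mem_univ _)
  have h3 : n = 0 := by exact_mod_cast h2
  omega

theorem pb_gen' {a b : ℤ} {A0 : Type} [CommRing A0] [IsDomain A0] (hnt : NT a b)
    (hD : Disc (a : ℂ) (b : ℂ)) (ι0 : A0 →+* ℂ) (hι0 : Function.Injective ι0)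
    (φ : (MvPolynomial (Fin 2) A0)[X]) (hφ : φ.Monic)
    (hPB : ∀ n : ℕ, 1 ≤ n → Irreducible (φ.map
      (ev ((algebraMap ℂ (FFd (a : ℂ) (b : ℂ))).comp ι0) (crd (n • Rg hD)).1
        (crd (n • Rg hD)).2)))
    (xn yn : ℂ) (hxn : ∀ p : A0[X], p.eval₂ ι0 xn = 0 → p = 0)
    (hyn : yn ^ 2 = xn ^ 3 + (a : ℂ) * xn + (b : ℂ)) :
    ∃ xh yh : ℂ, (∀ p : A0[X], p.eval₂ ι0 xh = 0 → p = 0) ∧
      yh ^ 2 = xh ^ 3 + (a : ℂ) * xh + (b : ℂ) ∧ yh ≠ 0 ∧ TI ι0 a b xh yh φ := by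
  refine pb_gen hnt hD ι0 hι0 φ hφ (fun n hn => ?_) xn yn hxn hyn
  have h := hPB n hn
  have h1 := nsmul_inst (CV ((a : FFd (a : ℂ) (b : ℂ))) (b : FFd (a : ℂ) (b : ℂ))).toAffine
    (fun a b => Classical.propDecidable (a = b)) (inferInstance) n (Rg hD)
  refine (congrArg (fun R => Irreducible (φ.map
      (ev ((algebraMap ℂ (FFd (a : ℂ) (b : ℂ))).comp ι0) (crd R).1
        (crd R).2))) ?_).mp h
  exact h1.symm

end Pool.Agent.J4H11.GP
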