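import Pool.Agent.J4H11.GN.LocA3

/-!
# The local condition, with independent generic translates
-/

set_option autoImplicit false

open Polynomial Pool.Agent.J4H11.RC Pool.Agent.J4H11.GC Pool.Agent.J4H11.SC
  Pool.Agent.H901R3.MS WeierstrassCurve

namespace Pool.Agent.J4H11.GN

section
variable {A0 : Type} [CommRing A0] (ι0 : A0 →+* ℂ) (a b : ℤ)

theorem locB [IsDomain A0] [IsNoetherianRing A0] (hι0 : Function.Injective ι0) (xh yh : ℂ)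
    (hxh : ∀ p : A0[X], p.eval₂ ι0 xh = 0 → p = 0)
    (hyn : yh ^ 2 = xh ^ 3 + (a : ℂ) * xh + (b : ℂ))
    (φ θp : (MvPolynomial (Fin 2) A0)[X]) (hφ : φ.Monic) (hθm : θp.Monic)
    (xh1 yh1 : ℂ) (hxh1 : ∀ p : A0[X], p.eval₂ ι0 xh1 = 0 → p = 0)
    (hyn1 : yh1 ^ 2 = xh1 ^ 3 + (a : ℂ) * xh1 + (b : ℂ)) (hyh1 : yh1 ≠ 0)
    (hTφ : TI ι0 a b xh1 yh1 φ)
    (xh2 yh2 : ℂ) (hxh2 : ∀ p : A0[X], p.eval₂ ι0 xh2 = 0 → p = 0)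
    (hyn2 : yh2 ^ 2 = xh2 ^ 3 + (a : ℂ) * xh2 + (b : ℂ)) (hyh2 : yh2 ≠ 0)
    (hTθ : TI ι0 a b xh2 yh2 θp)
    (θ : ℂ) (hθ : (θp.map (ev ι0 xh yh)).IsRoot θ)
    (f : ℤ[X]) (hf : f.Monic) (α : ℂ) (hα : aeval α f = 0)
    {ν : ℕ} (hν : 2 ≤ ν) (w : Fin ν → ℂ) (hw : Function.Injective w)
    (hroot : ∀ t, (φ.map (ev ι0 xh yh)).IsRoot (w t))
    (hgen : ∀ t, w t ∈ Subfield.closure (Set.range (hom1 ι0 xh yh hyn) ∪ {θ, α}))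
    (N : ℕ) (hN : θp.natDegree < N * (ν - 1)) :
    ∃ s0 : A0, s0 ≠ 0 ∧ ∀ κ : ℝ, 0 < κ → ∃ T0 : ℕ, ∀ p : ℕ, T0 ≤ p → ∀ (_ : Fact p.Prime),
      Disc (a : ZMod p) (b : ZMod p) → (f.map (Int.castRingHom (ZMod p))).Splits →
      ∀ ψ0 : A0 →+* ZMod p, ψ0 s0 ≠ 0 →
      ∀ (H : AddSubgroup (Pt (a : ZMod p) (b : ZMod p))) (P0 : Pt (a : ZMod p) (b : ZMod p)),
      (p : ℝ) ^ (1 / 2 + κ) ≤ (Nat.card H : ℝ) →
      N * {h : Pt (a : ZMod p) (b : ZMod p) | h ∈ H ∧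
        (P0 + h = 0 ∨ 1 ≤ NE φ ψ0 (P0 + h))}.ncard ≤ (N - 1) * Nat.card H := by
  have hX1 : ∀ xh' yh' : ℂ, GT ι0 a b xh' yh' (X : (MvPolynomial (Fin 2) A0)[X]) = X := by
    intro xh' yh'
    unfold GT
    rw [Polynomial.map_X]
  obtain ⟨s1, m1, C1, h1, c1, f1⟩ := famT ι0 a b xh1 yh1 hxh1 hyn1 hyh1 φ φ hφ hφ hTφ.1 hTφ.2
  obtain ⟨s2, m2, C2, h2, c2, f2⟩ := famT ι0 a b xh1 yh1 hxh1 hyn1 hyh1 φ X hφ monic_X hTφ.1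
    (irr_X _ hTφ.1 _ (hX1 xh1 yh1))
  obtain ⟨s3, m3, C3, h3, c3, f3⟩ := famT ι0 a b xh2 yh2 hxh2 hyn2 hyh2 θp θp hθm hθm hTθ.1 hTθ.2
  obtain ⟨s4, m4, C4, h4, c4, f4⟩ := famT ι0 a b xh2 yh2 hxh2 hyn2 hyh2 θp X hθm monic_X hTθ.1
    (irr_X _ hTθ.1 _ (hX1 xh2 yh2))
  obtain ⟨s5, m5, h5, f5⟩ := pairA (F := FFd (a : ℂ) (b : ℂ)) ι0 hι0 a b xh yh hxh hyn
    (gX (a : ℂ) (b : ℂ)) (gY (a : ℂ) (b : ℂ)) (by
      have h := g_onE (a : ℂ) (b : ℂ)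
      unfold Pool.Agent.J4H11.SC.OnE at h
      rw [map_intCast, map_intCast] at h
      exact h) (g_trans (a : ℂ) (b : ℂ)) φ θp hθm hTθ.1 θ hθ f hf α hα w hw hroot hgen
  have hθ1 : 1 ≤ θp.natDegree := by
    have h := hTθ.1.natDegree_pos
    exact h.trans_le (natDegree_map_le)
  set s : Fin 5 → A0 := ![s1, s2, s3, s4, s5] with hs
  set m : Fin 5 → ℕ := ![m1, m2, m3, m4, m5] with hm
  set Cst : Fin 4 → ℝ := ![C1, C2, C3, C4] with hCst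
  have hC : ∀ t, 0 ≤ Cst t := by
    intro t
    fin_cases t
    · exact c1
    · exact c2
    · exact c3
    · exact c4
  refine ⟨∏ t, s t, ?_, fun κ hκ => ?_⟩
  · rw [Finset.prod_ne_zero_iff]
    intro t _
    fin_cases t
    · exact h1
    · exact h2
    · exact h3
    · exact h4
    · exact h5
  obtain ⟨T0, hT0⟩ := loc_fin a b φ θp hφ hθm hθ1 s m Cst hC f1 f2 f3 f4 ν hν
    (fun p => (f.map (Int.castRingHom (ZMod p))).Splits)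
    (fun p _ ψ0 hψ0 hsp => f5 (ZMod p) ψ0 hψ0 hsp) N hN κ hκ
  refine ⟨T0, fun p hp hpp hDp hsp ψ0 hψ0 => hT0 p hp hpp hDp hsp ψ0 fun t => ?_⟩
  rw [map_prod] at hψ0
  exact (Finset.prod_ne_zero_iff.1 hψ0) t (Finset.mem_univ t)

end

end Pool.Agent.J4H11.GN
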