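import Pool.Agent.J4H11.GN.FinG2
import Pool.Agent.J4H11.GP.Inst
import Pool.Agent.J4H11.GP.LocB

/-!
# Covers of products of elliptic curves without unramified subcovers: the main theorem
-/

set_option autoImplicit false

open Polynomial Module Pool.Agent.J4H11.RC Pool.Agent.J4H11.GC Pool.Agent.J4H11.SC
  Pool.Agent.H901R3.MS WeierstrassCurve Pool.Agent.J4H11.GN

namespace Pool.Agent.J4H11.GP

section
variable {r : ℕ} (i : Fin r) {a b : Fin r → ℤ} {s : ℕ}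

theorem main_pb (hD : ∀ j, Disc (a j : ℚ) (b j : ℚ))
    (hinf : ∀ j, Infinite (Pt (a j : ℚ) (b j : ℚ)))
    (hrk : 3 ≤ finrank ℤ (Pt (a i : ℚ) (b i : ℚ)))
    (xx yy : Fin r → ℂ) (hxx : AlgebraicIndependent ℚ xx)
    (hyy : ∀ j, yy j ^ 2 = xx j ^ 3 + ((a j : ℤ) : ℂ) * xx j + ((b j : ℤ) : ℂ))
    (xb yb : Bi i → ℂ) (hxb : xb = fun j : Bi i => xx j) (hyb : yb = fun j : Bi i => yy j)
    (ζ : Fin s → ℂ) (hζ : ∀ t, IsIntegral (Algebra.adjoin ℤ (Set.range (pv xb yb))) (ζ t))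
    (Φ Θ : (MvPolynomial ((Fin r × Fin 2) ⊕ Fin s) ℤ)[X]) (hΦ : Φ.Monic) (hΘ : Θ.Monic)
    (hDC : Disc (a i : ℂ) (b i : ℂ))
    (hPΦ : ∀ n : ℕ, 1 ≤ n → Irreducible ((Φ.map (part i xb yb ζ)).map
      (ev ((algebraMap ℂ (FFd (a i : ℂ) (b i : ℂ))).comp (zth xb yb ζ).range.subtype)
        (crd (n • Rg hDC)).1 (crd (n • Rg hDC)).2)))
    (hPΘ : ∀ n : ℕ, 1 ≤ n → Irreducible ((Θ.map (part i xb yb ζ)).map
      (ev ((algebraMap ℂ (FFd (a i : ℂ) (b i : ℂ))).comp (zth xb yb ζ).range.subtype)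
        (crd (n • Rg hDC)).1 (crd (n • Rg hDC)).2)))
    (θ : ℂ) (hθ : (Θ.map (zth xx yy ζ)).IsRoot θ) (α : ℂ) (hα : IsIntegral ℤ α)
    {ν : ℕ} (hν : 2 ≤ ν) (w : Fin ν → ℂ) (hw : Function.Injective w)
    (hroot : ∀ t, (Φ.map (zth xx yy ζ)).IsRoot (w t))
    (hgen : ∀ t, w t ∈ Subfield.closure
      (Set.range xx ∪ Set.range yy ∪ Set.range ζ ∪ {θ, α}))
    (N : ℕ) (hN2 : 2 ≤ N) (hN : Θ.natDegree < N * (ν - 1))
    (γ : ℝ) (hγ : 0 ≤ γ) (hγ1 : γ ≤ 1) (hγN : (1 - 1 / (N : ℝ)) * (1000 : ℝ) ^ (2 * γ) ≤ 1) :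
    ∃ C : ℝ, 0 ≤ C ∧ ∀ (T : ℝ), 2 ≤ T → ∀ c : (j : Fin r) → Pt (a j : ℚ) (b j : ℚ),
      {P : (j : Fin r) → Pt (a j : ℚ) (b j : ℚ) | (∀ j, hx (P j - c j) ≤ T ^ 2) ∧
        Lf0Z i xb yb ζ Φ P}.Finite ∧
      ({P : (j : Fin r) → Pt (a j : ℚ) (b j : ℚ) | (∀ j, hx (P j - c j) ≤ T ^ 2) ∧
        Lf0Z i xb yb ζ Φ P}.ncard : ℝ) ≤
        C * T ^ (∑ j, finrank ℤ (Pt (a j : ℚ) (b j : ℚ))) * Real.log T ^ (-γ) := by
  classical
  have hybc : ∀ j, yb j ^ 2 = xb j ^ 3 + ((a j : ℤ) : ℂ) * xb j + ((b j : ℤ) : ℂ) := by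
    intro j
    rw [hxb, hyb]
    exact hyy j
  have htr : Transcendental (Algebra.adjoin ℚ (Set.range xb)) (xx i) := by
    rw [hxb]
    exact opt_trans i xx hxx
  have hxh := trans_z (fun j : Bi i => a j) (fun j : Bi i => b j) xb yb hybc (xx i) htr ζ hζ
  have hyi := hyy i
  have hMex := fun t => exists_M xb yb ζ t (hζ t)
  choose M hM hM0 using hMex
  obtain ⟨f, hf, hf0⟩ := hα
  set ι0 := (zth xb yb ζ).range.subtype with hι0
  have hι0inj : Function.Injective ι0 := Subtype.val_injective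
  -- the evaluation at the very general point
  have hextx : RC.ext i xb (xx i) = xx := by
    funext j
    unfold RC.ext
    by_cases hj : j = i
    · rw [dif_pos hj, hj]
    · rw [dif_neg hj, hxb]
  have hexty : RC.ext i yb (yy i) = yy := by
    funext j
    unfold RC.ext
    by_cases hj : j = i
    · rw [dif_pos hj, hj]
    · rw [dif_neg hj, hyb]
  have hev : (ev ι0 (xx i) (yy i)).comp (part i xb yb ζ) = zth xx yy ζ := by
    rw [part_ev i xb yb ζ ι0 xb yb ζ (fun G => rfl), hextx, hexty]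
  -- the field generated by the coordinates
  have hle : Subfield.closure (Set.range xx ∪ Set.range yy ∪ Set.range ζ ∪ {θ, α}) ≤
      Subfield.closure (Set.range (hom1 ι0 (xx i) (yy i) hyi) ∪ {θ, α}) := by
    rw [Subfield.closure_le]
    have hc : ∀ c : AZ xb yb ζ, (c : ℂ) ∈
        Subfield.closure (Set.range (hom1 ι0 (xx i) (yy i) hyi) ∪ {θ, α}) := by
      intro c
      apply Subfield.subset_closure
      left
      exact ⟨c1 _ _ _ c, hom1_c ι0 (xx i) (yy i) hyi c⟩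
    rintro u (((⟨j, rfl⟩ | ⟨j, rfl⟩) | ⟨t, rfl⟩) | hu)
    · by_cases hj : j = i
      · rw [hj]
        apply Subfield.subset_closure
        left
        exact ⟨x1 _ _ _, hom1_x ι0 (xx i) (yy i) hyi⟩
      · have h1 := hc ((zth xb yb ζ).rangeRestrict (MvPolynomial.X (Sum.inl (⟨j, hj⟩, 0))))
        have h2 : ((zth xb yb ζ).rangeRestrict (MvPolynomial.X (Sum.inl (⟨j, hj⟩, 0))) : ℂ) =
            xx j := by
          change zth xb yb ζ _ = _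
          rw [zth_x, hxb]
        rwa [h2] at h1
    · by_cases hj : j = i
      · rw [hj]
        apply Subfield.subset_closure
        left
        exact ⟨y1 _ _ _, hom1_y ι0 (xx i) (yy i) hyi⟩
      · have h1 := hc ((zth xb yb ζ).rangeRestrict (MvPolynomial.X (Sum.inl (⟨j, hj⟩, 1))))
        have h2 : ((zth xb yb ζ).rangeRestrict (MvPolynomial.X (Sum.inl (⟨j, hj⟩, 1))) : ℂ) =
            yy j := by
          change zth xb yb ζ _ = _
          rw [zth_y, hyb]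
        rwa [h2] at h1
    · have h1 := hc ((zth xb yb ζ).rangeRestrict (MvPolynomial.X (Sum.inr t)))
      have h2 : ((zth xb yb ζ).rangeRestrict (MvPolynomial.X (Sum.inr t)) : ℂ) = ζ t := by
        change zth xb yb ζ _ = _
        rw [zth_z]
      rwa [h2] at h1
    · exact Subfield.subset_closure (Or.inr hu)
  have hΘd : (Θ.map (part i xb yb ζ)).natDegree < N * (ν - 1) :=
    lt_of_le_of_lt natDegree_map_le hN
  have hnt : NT (a i) (b i) := nt_of_rank (a i) (b i) (by omega)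
  obtain ⟨xh1, yh1, hxh1, hyn1, hyh1, hTΦ⟩ := pb_gen' hnt hDC ι0 hι0inj
    (Φ.map (part i xb yb ζ)) (hΦ.map _) hPΦ (xx i) (yy i) hxh hyi
  obtain ⟨xh2, yh2, hxh2, hyn2, hyh2, hTΘ⟩ := pb_gen' hnt hDC ι0 hι0inj
    (Θ.map (part i xb yb ζ)) (hΘ.map _) hPΘ (xx i) (yy i) hxh hyi
  obtain ⟨s0, hs0, hloc⟩ := locB ι0 (a i) (b i) hι0inj (xx i) (yy i) hxh hyi
    (Φ.map (part i xb yb ζ)) (Θ.map (part i xb yb ζ)) (hΦ.map _) (hΘ.map _)
    xh1 yh1 hxh1 hyn1 hyh1 hTΦ xh2 yh2 hxh2 hyn2 hyh2 hTΘ θ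
    (by rw [Polynomial.map_map, hev]; exact hθ) f hf α hf0 hν w hw
    (fun t => by rw [Polynomial.map_map, hev]; exact hroot t)
    (fun t => hle (hgen t)) N hΘd
  obtain ⟨Ψ, hΨ0, hOb⟩ := obst_z i (hD i) xb yb hybc ζ hζ Φ hΦ M hM hM0
    (fun p => (f.map (Int.castRingHom (ZMod p))).Splits) N hN2 s0 hs0 hloc
  obtain ⟨cc, TT, hcc, hTT⟩ := many_primes f hf
  exact ball2 i (fun p => (f.map (Int.castRingHom (ZMod p))).Splits) cc TT hcc hTT hD hinf hrk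
    Ψ hΨ0 N (by omega) (Lf0Z i xb yb ζ Φ) (fun z => LfZ i xb yb ζ Φ z) hOb _
    (fin1_z i xb yb ζ Φ M hM hM0) γ hγ hγ1 hγN

end

end Pool.Agent.J4H11.GP
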